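import Mathlib

set_option autoImplicit false

open Polynomial

namespace Pool.Agent.Helper165

/-- A polynomial of degree less than `p` which is invariant under translation by a nonzero element
of a domain of characteristic `p` is constant. -/
lemma const_of_shift_invariant {D : Type*} [CommRing D] [IsDomain D] (p : ℕ) [hp : Fact p.Prime]
    [CharP D p] (a : D) (ha : a ≠ 0) (P : D[X]) (hP : P.comp (X + C a) = P)
    (hdeg : P.degree < p) : P = C (P.coeff 0) := by
  classical
  set Q := P - C (P.coeff 0) with hQ
  have hQdeg : Q.degree < p := by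
    refine lt_of_le_of_lt (degree_sub_le _ _) ?_
    rw [max_lt_iff]
    refine ⟨hdeg, lt_of_le_of_lt degree_C_le ?_⟩
    exact_mod_cast hp.out.pos
  have hroot : ∀ n : ℕ, Q.eval ((n : D) * a) = 0 := by
    intro n
    induction n with
    | zero =>
      simp [hQ, coeff_zero_eq_eval_zero]
    | succ n ih =>
      have h1 : Q.comp (X + C a) = Q := by
        rw [hQ, sub_comp, hP, C_comp]
      have h2 : Q.eval (((n : ℕ) : D) * a + a) = Q.eval ((n : D) * a) := by
        conv_rhs => rw [← h1, eval_comp]
        simp
      have h3 : (((n + 1 : ℕ) : D)) * a = (n : D) * a + a := by push_cast; ring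
      rw [h3, h2, ih]
  have hQ0 : Q = 0 := by
    by_contra hne
    have hinj : Set.InjOn (fun n : ℕ => (n : D) * a) (Finset.range p : Set ℕ) := by
      intro m hm n hn hmn
      have hmn' : ((m : D)) * a = (n : D) * a := hmn
      have := mul_right_cancel₀ ha hmn'
      have hm' : m < p := by simpa using hm
      have hn' : n < p := by simpa using hn
      have h := (CharP.natCast_eq_natCast D p).1 this
      unfold Nat.ModEq at h
      rwa [Nat.mod_eq_of_lt hm', Nat.mod_eq_of_lt hn'] at h
    have hsub : ((Finset.range p).image (fun n : ℕ => (n : D) * a)).val ≤ Q.roots := by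
      rw [Multiset.le_iff_subset (Finset.nodup _)]
      intro r hr
      rw [Finset.mem_val, Finset.mem_image] at hr
      obtain ⟨n, -, rfl⟩ := hr
      rw [mem_roots hne]
      exact hroot n
    have hcard := Multiset.card_le_card hsub
    rw [Finset.card_val, Finset.card_image_of_injOn hinj, Finset.card_range] at hcard
    have h4 := card_roots' Q
    have h5 : Q.natDegree < p := (natDegree_lt_iff_degree_lt hne).2 hQdeg
    omega
  exact sub_eq_zero.mp hQ0

/-- The Artin-Schreier type polynomial `X ^ p - a ^ (p - 1) * X`. -/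
noncomputable def asPoly {D : Type*} [CommRing D] (p : ℕ) (a : D) : D[X] :=
  X ^ p - C (a ^ (p - 1)) * X

lemma asPoly_comp_shift {D : Type*} [CommRing D] (p : ℕ) [hp : Fact p.Prime] [CharP D p]
    (a : D) : (asPoly p a).comp (X + C a) = asPoly p a := by
  unfold asPoly
  simp only [sub_comp, pow_comp, X_comp, mul_comp, C_comp]
  have : ExpChar D[X] p := ExpChar.prime hp.out
  rw [add_pow_char, mul_add, ← C_pow, ← C_mul, ← pow_succ, Nat.sub_add_cancel hp.out.pos]
  ring

lemma asPoly_monic {D : Type*} [CommRing D] [Nontrivial D] (p : ℕ) [hp : Fact p.Prime]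
    (a : D) : (asPoly p a).Monic ∧ (asPoly p a).natDegree = p := by
  unfold asPoly
  have h1 : (C (a ^ (p - 1)) * X : D[X]).degree < (p : WithBot ℕ) := by
    refine lt_of_le_of_lt (degree_C_mul_X_le _) ?_
    exact_mod_cast hp.out.one_lt
  have h2 : (C (a ^ (p - 1)) * X : D[X]).degree < (X ^ p : D[X]).degree := by
    rwa [degree_X_pow]
  constructor
  · exact (monic_X_pow p).sub_of_left h2
  · rw [natDegree_sub_eq_left_of_natDegree_lt, natDegree_X_pow]
    rw [natDegree_X_pow]
    refine lt_of_le_of_lt (natDegree_C_mul_le _ _) ?_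
    rw [natDegree_X]
    exact hp.out.one_lt

/-- The invariants of `D[X]` under the translation `X ↦ X + a` are the polynomials in
`X ^ p - a ^ (p - 1) * X`. -/
lemma exists_comp_asPoly {D : Type*} [CommRing D] [IsDomain D] (p : ℕ) [hp : Fact p.Prime]
    [CharP D p] (a : D) (ha : a ≠ 0) :
    ∀ (n : ℕ) (P : D[X]), P.natDegree < n → P.comp (X + C a) = P →
      ∃ Q : D[X], P = Q.comp (asPoly p a) := by
  intro n
  induction n with
  | zero => intro P h; exact absurd h (Nat.not_lt_zero _)
  | succ n ih =>
    intro P hdeg hP
    obtain ⟨hmon, hnd⟩ := asPoly_monic (D := D) p a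
    set N := asPoly p a with hN
    have hNc : N.comp (X + C a) = N := asPoly_comp_shift p a
    have hdiv : P %ₘ N + N * (P /ₘ N) = P := modByMonic_add_div P N
    have hXdeg : (X + C a : D[X]).natDegree = 1 := natDegree_X_add_C a
    have hXlead : (X + C a : D[X]).leadingCoeff = 1 := leadingCoeff_X_add_C a
    have hr : ((P %ₘ N).comp (X + C a)).degree < N.degree := by
      by_cases h0 : (P %ₘ N) = 0
      · rw [h0, zero_comp, degree_zero, bot_lt_iff_ne_bot, Ne, degree_eq_bot]
        exact hmon.ne_zero
      · have h1 : (P %ₘ N).degree < N.degree := degree_modByMonic_lt P hmon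
        refine lt_of_le_of_lt ?_ h1
        rw [degree_eq_natDegree h0]
        refine degree_le_of_natDegree_le ?_
        refine natDegree_comp_le.trans ?_
        rw [hXdeg, mul_one]
    have huniq := div_modByMonic_unique ((P /ₘ N).comp (X + C a)) ((P %ₘ N).comp (X + C a))
      (f := P) hmon ⟨by
        have := congrArg (fun R : D[X] => R.comp (X + C a)) hdiv
        simp only [add_comp, mul_comp, hNc, hP] at this
        exact this, hr⟩
    have hmod : (P %ₘ N).comp (X + C a) = P %ₘ N := huniq.2.symm
    have hquo : (P /ₘ N).comp (X + C a) = P /ₘ N := huniq.1.symm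
    have hconst : P %ₘ N = C ((P %ₘ N).coeff 0) := by
      refine const_of_shift_invariant p a ha _ hmod ?_
      refine lt_of_lt_of_le (degree_modByMonic_lt P hmon) ?_
      rw [degree_eq_natDegree hmon.ne_zero, hnd]
    by_cases hPN : P.natDegree < p
    · have hPdeg : P.degree < p := by
        by_cases h0 : P = 0
        · rw [h0, degree_zero]; exact WithBot.bot_lt_coe _
        · rw [degree_eq_natDegree h0]; exact_mod_cast hPN
      refine ⟨C (P.coeff 0), ?_⟩
      rw [C_comp]
      exact const_of_shift_invariant p a ha P hP hPdeg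
    · push Not at hPN
      have hlt : (P /ₘ N).natDegree < n := by
        rw [natDegree_divByMonic P hmon, hnd]
        have := hp.out.pos
        omega
      obtain ⟨Q, hQ⟩ := ih _ hlt hquo
      refine ⟨C ((P %ₘ N).coeff 0) + X * Q, ?_⟩
      rw [add_comp, C_comp, mul_comp, X_comp, ← hQ, ← hconst]
      exact hdiv.symm

end Pool.Agent.Helper165
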