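import Pool.Agent.Helper165.Jac
import Pool.Agent.Helper165.Chart

set_option autoImplicit false

namespace Pool.Agent.Helper165

open KaehlerDifferential

variable {k K : Type*} [Field k] [Field K] [Algebra k K] {p : ℕ} [hp : Fact p.Prime] [CharP K p]

omit hp in
lemma D_pow_char (a : K) : D k K (a ^ p) = 0 := by
  rw [Derivation.leibniz_pow, ← Nat.cast_smul_eq_nsmul K, CharP.cast_eq_zero, zero_smul]

omit [CharP K p] in
/-- The product of the diagonal entries. -/
lemma prod_c (i j : Fin p) (hij : i ≠ j) (s : K) (hs : s ≠ 0) :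
    ∏ a : Fin 2 × Fin p, (if a.1 = 1 then
      (if a.2 = i then -(s ^ 2)⁻¹ else if a.2 = j then s else s⁻¹) else
      (if a.2 = i then -s⁻¹ else if a.2 = j then s ^ p else 1)) = 1 := by
  rw [Fintype.prod_prod_type, Fin.prod_univ_two]
  simp only [zero_ne_one, if_false, if_true]
  have h0 : ∏ x : Fin p, (if x = i then -s⁻¹ else if x = j then s ^ p else 1) = -s⁻¹ * s ^ p := by
    rw [← Finset.mul_prod_erase Finset.univ _ (Finset.mem_univ i), if_pos rfl]
    rw [← Finset.mul_prod_erase (Finset.univ.erase i) _
      (Finset.mem_erase.2 ⟨Ne.symm hij, Finset.mem_univ j⟩), if_neg (Ne.symm hij), if_pos rfl]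
    rw [Finset.prod_eq_one]
    · ring
    · intro x hx
      simp only [Finset.mem_erase, Finset.mem_univ, and_true] at hx
      rw [if_neg hx.2, if_neg hx.1]
  have h1 : ∏ x : Fin p, (if x = i then -(s ^ 2)⁻¹ else if x = j then s else s⁻¹) =
      -(s ^ 2)⁻¹ * (s * s⁻¹ ^ (p - 2)) := by
    rw [← Finset.mul_prod_erase Finset.univ _ (Finset.mem_univ i), if_pos rfl]
    rw [← Finset.mul_prod_erase (Finset.univ.erase i) _
      (Finset.mem_erase.2 ⟨Ne.symm hij, Finset.mem_univ j⟩), if_neg (Ne.symm hij), if_pos rfl]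
    rw [Finset.prod_congr rfl (g := fun _ => s⁻¹)]
    · rw [Finset.prod_const, Finset.card_erase_of_mem
        (Finset.mem_erase.2 ⟨Ne.symm hij, Finset.mem_univ j⟩), Finset.card_erase_of_mem
        (Finset.mem_univ i), Finset.card_univ, Fintype.card_fin, Nat.sub_sub]
    · intro x hx
      simp only [Finset.mem_erase, Finset.mem_univ, and_true] at hx
      rw [if_neg hx.2, if_neg hx.1]
  rw [h0, h1]
  obtain ⟨m, hm⟩ : ∃ m, p = m + 2 := ⟨p - 2, by have := hp.out.two_le; omega⟩
  have hm2 : p - 2 = m := by omega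
  rw [hm2, hm, inv_pow]
  field_simp
  ring

omit hp [CharP K p] in
lemma coord_1i (x : Fin p → K) (w : Fin p → Fin p → K) (n : Fin p → K) (i : Fin p) :
    coord x w n i (1, i) = x i := by simp [coord]

omit hp [CharP K p] in
lemma coord_0i (x : Fin p → K) (w : Fin p → Fin p → K) (n : Fin p → K) (i : Fin p) :
    coord x w n i (0, i) = n i := by simp [coord]

omit hp [CharP K p] in
lemma coord_1j (x : Fin p → K) (w : Fin p → Fin p → K) (n : Fin p → K) {i l : Fin p}
    (h : l ≠ i) : coord x w n i (1, l) = x l / x i := by simp [coord, h]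

omit hp [CharP K p] in
lemma coord_0j (x : Fin p → K) (w : Fin p → Fin p → K) (n : Fin p → K) {i l : Fin p}
    (h : l ≠ i) : coord x w n i (0, l) = w i l / x i := by simp [coord, h]

/-- The form attached to the coordinates of the chart does not depend on the chart. -/
lemma jac {N' : Type*} [AddCommGroup N'] [Module K N']
    (x : Fin p → K) (w : Fin p → Fin p → K) (n : Fin p → K)
    (hx : ∀ i, x i ≠ 0) (hanti : ∀ i j, w i j = -w j i)
    (hpl : ∀ i j l, x i * w j l - x j * w i l + x l * w i j = 0)
    (hn : ∀ i j, x i ^ p * n j - x j ^ p * n i = w i j ^ p - (x i * x j) ^ (p - 1) * w i j)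
    (i j : Fin p) (hij : i ≠ j) (f : Ω[K⁄k] [⋀^(Fin 2 × Fin p)]→ₗ[K] N') :
    f (fun a => D k K (coord x w n j a)) = f (fun a => D k K (coord x w n i a)) := by
  classical
  have hji : j ≠ i := Ne.symm hij
  set τ : Equiv.Perm (Fin 2 × Fin p) := Equiv.swap (1, i) (1, j) * Equiv.swap (0, i) (0, j) with hτ
  set v : Fin 2 × Fin p → Ω[K⁄k] := fun a => D k K (coord x w n i a) with hv
  have hne1 : ((1 : Fin 2), i) ≠ (1, j) := by
    intro h; exact hij (Prod.ext_iff.1 h).2
  have hne0 : ((0 : Fin 2), i) ≠ (0, j) := by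
    intro h; exact hij (Prod.ext_iff.1 h).2
  have hsign : f (v ∘ τ) = f v := by
    rw [AlternatingMap.map_perm, hτ, Equiv.Perm.sign_mul, Equiv.Perm.sign_swap hne1,
      Equiv.Perm.sign_swap hne0]
    simp
  have hτ1i : τ (1, i) = (1, j) := by simp [hτ, Equiv.swap_apply_def]
  have hτ1j : τ (1, j) = (1, i) := by simp [hτ, Equiv.swap_apply_def, hji]
  have hτ0i : τ (0, i) = (0, j) := by simp [hτ, Equiv.swap_apply_def]
  have hτ0j : τ (0, j) = (0, i) := by simp [hτ, Equiv.swap_apply_def]
  have hτl : ∀ (e : Fin 2) (l : Fin p), l ≠ i → l ≠ j → τ (e, l) = (e, l) := by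
    intro e l h1 h2
    simp [hτ, Equiv.swap_apply_def, h1, h2]
  set s : K := x j / x i with hs
  have hs0 : s ≠ 0 := div_ne_zero (hx j) (hx i)
  have hxi := hx i
  have hxj := hx j
  set z : K := w i j / x i with hz
  have v1i : (v ∘ τ) (1, i) = D k K s := by
    simp only [Function.comp_apply, hτ1i, hv, hs, coord_1j x w n hji]
  have v1j : (v ∘ τ) (1, j) = D k K (x i) := by
    simp only [Function.comp_apply, hτ1j, hv, coord_1i]
  have v1l : ∀ l, l ≠ i → l ≠ j → (v ∘ τ) (1, l) = D k K (x l / x i) := by
    intro l h1 h2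
    simp only [Function.comp_apply, hτl 1 l h1 h2, hv, coord_1j x w n h1]
  have v0i : (v ∘ τ) (0, i) = D k K z := by
    simp only [Function.comp_apply, hτ0i, hv, hz, coord_0j x w n hji]
  have v0j : (v ∘ τ) (0, j) = D k K (n i) := by
    simp only [Function.comp_apply, hτ0j, hv, coord_0i]
  have v0l : ∀ l, l ≠ i → l ≠ j → (v ∘ τ) (0, l) = D k K (w i l / x i) := by
    intro l h1 h2
    simp only [Function.comp_apply, hτl 0 l h1 h2, hv, coord_0j x w n h1]
  have hDinv : D k K s⁻¹ = (-(s ^ 2)⁻¹) • D k K s := by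
    rw [Derivation.leibniz_inv]
    simp
  set c : Fin 2 × Fin p → K := fun a => if a.1 = 1 then
      (if a.2 = i then -(s ^ 2)⁻¹ else if a.2 = j then s else s⁻¹) else
      (if a.2 = i then -s⁻¹ else if a.2 = j then s ^ p else 1) with hc
  have c1i : c (1, i) = -(s ^ 2)⁻¹ := by simp [hc]
  have c1j : c (1, j) = s := by simp [hc, hji]
  have c1l : ∀ l, l ≠ i → l ≠ j → c (1, l) = s⁻¹ := fun l h1 h2 => by simp [hc, h1, h2]
  have c0i : c (0, i) = -s⁻¹ := by simp [hc]
  have c0j : c (0, j) = s ^ p := by simp [hc, hji]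
  have c0l : ∀ l, l ≠ i → l ≠ j → c (0, l) = 1 := fun l h1 h2 => by simp [hc, h1, h2]
  set rk : Fin 2 × Fin p → ℕ := fun a => if a.1 = 1 then (if a.2 = i then 0 else 1) else
    (if a.2 = i then 2 else 3) with hrk
  have r1i : rk (1, i) = 0 := by simp [hrk]
  have r1 : ∀ l, l ≠ i → rk (1, l) = 1 := fun l h => by simp [hrk, h]
  have r0i : rk (0, i) = 2 := by simp [hrk]
  have r0 : ∀ l, l ≠ i → rk (0, l) = 3 := fun l h => by simp [hrk, h]
  have mem : ∀ (a b : Fin 2 × Fin p), rk b < rk a → (v ∘ τ) b ∈
      Submodule.span K ((v ∘ τ) '' {b | rk b < rk a}) := fun a b h =>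
    Submodule.subset_span ⟨b, h, rfl⟩
  have hmain := alt_triangular f (v ∘ τ) (fun a => D k K (coord x w n j a)) c rk ?_
  · rw [← hsign, hmain, hc, prod_c i j hij s hs0, one_smul]
  · rintro ⟨e, l⟩
    rcases (show e = 0 ∨ e = 1 by fin_cases e <;> simp) with rfl | rfl
    · by_cases hli : l = i
      · subst hli
        have hs1 : D k K s ∈ Submodule.span K ((v ∘ τ) '' {b | rk b < rk (0, l)}) := by
          rw [← v1i]; exact mem (0, l) (1, l) (by rw [r1i, r0i]; norm_num)
        have e1 : w j l / x j = -(z * s⁻¹) := by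
          rw [hanti j l, hz, hs]
          field_simp
        rw [coord_0j x w n hij, e1, c0i, v0i, map_neg, Derivation.leibniz, hDinv]
        have e2 : -(z • (-(s ^ 2)⁻¹) • D k K s + s⁻¹ • D k K z) - (-s⁻¹) • D k K z =
            (z * (s ^ 2)⁻¹) • D k K s := by
          module
        rw [e2]
        exact Submodule.smul_mem _ _ hs1
      · by_cases hlj : l = j
        · subst hlj
          have hs1 : D k K s ∈ Submodule.span K ((v ∘ τ) '' {b | rk b < rk (0, l)}) := by
            rw [← v1i]; exact mem (0, l) (1, i) (by rw [r1i, r0 l hli]; norm_num)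
          have hx1 : D k K (x i) ∈ Submodule.span K ((v ∘ τ) '' {b | rk b < rk (0, l)}) := by
            rw [← v1j]; exact mem (0, l) (1, l) (by rw [r1 l hli, r0 l hli]; norm_num)
          have hz1 : D k K z ∈ Submodule.span K ((v ∘ τ) '' {b | rk b < rk (0, l)}) := by
            rw [← v0i]; exact mem (0, l) (0, i) (by rw [r0i, r0 l hli]; norm_num)
          have hxl : D k K (x l) ∈ Submodule.span K ((v ∘ τ) '' {b | rk b < rk (0, l)}) := by
            have : x l = s * x i := by rw [hs]; field_simp
            rw [this, Derivation.leibniz]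
            exact Submodule.add_mem _ (Submodule.smul_mem _ _ hx1) (Submodule.smul_mem _ _ hs1)
          have e1 : n l = s ^ p * n i + z ^ p - x l ^ (p - 1) * z := by
            have h1 := hn i l
            obtain ⟨m, hm⟩ : ∃ m, p = m + 1 := ⟨p - 1, by have := hp.out.two_le; omega⟩
            have hm2 : p - 1 = m := by omega
            rw [hm2] at h1 ⊢
            have h2 : x i ^ p * n l = x l ^ p * n i + w i l ^ p - (x i * x l) ^ m * w i l := by
              linear_combination h1
            have h3 : x i ^ p ≠ 0 := pow_ne_zero _ hxi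
            apply mul_left_cancel₀ h3
            rw [h2, hs, hz, hm, div_pow, div_pow]
            field_simp
            ring
          rw [coord_0i, c0j, v0j, e1, map_sub, map_add, D_pow_char, Derivation.leibniz,
            D_pow_char, Derivation.leibniz, Derivation.leibniz_pow]
          have e2 : s ^ p • D k K (n i) + n i • (0 : Ω[K⁄k]) + 0 -
              (x l ^ (p - 1) • D k K z + z • (p - 1) • x l ^ (p - 1 - 1) • D k K (x l)) -
              s ^ p • D k K (n i) = (-(x l ^ (p - 1))) • D k K z -
              z • (p - 1) • x l ^ (p - 1 - 1) • D k K (x l) := by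
            module
          rw [e2]
          refine Submodule.sub_mem _ (Submodule.smul_mem _ _ hz1) (Submodule.smul_mem _ _ ?_)
          exact nsmul_mem (Submodule.smul_mem _ _ hxl) _
        · have hs1 : D k K s ∈ Submodule.span K ((v ∘ τ) '' {b | rk b < rk (0, l)}) := by
            rw [← v1i]; exact mem (0, l) (1, i) (by rw [r1i, r0 l hli]; norm_num)
          have hz1 : D k K z ∈ Submodule.span K ((v ∘ τ) '' {b | rk b < rk (0, l)}) := by
            rw [← v0i]; exact mem (0, l) (0, i) (by rw [r0i, r0 l hli]; norm_num)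
          have hsl : D k K (x l / x i) ∈
              Submodule.span K ((v ∘ τ) '' {b | rk b < rk (0, l)}) := by
            rw [← v1l l hli hlj]; exact mem (0, l) (1, l) (by rw [r1 l hli, r0 l hli]; norm_num)
          have e1 : w j l / x j = w i l / x i - (x l / x i) * (z * s⁻¹) := by
            have h1 := hpl i j l
            rw [hz, hs]
            field_simp
            linear_combination h1
          rw [coord_0j x w n hlj, e1, c0l l hli hlj, v0l l hli hlj, map_sub, Derivation.leibniz,
            Derivation.leibniz, hDinv, one_smul, sub_sub_cancel_left]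
          refine Submodule.neg_mem _ (Submodule.add_mem _ (Submodule.smul_mem _ _
            (Submodule.add_mem _ (Submodule.smul_mem _ _ (Submodule.smul_mem _ _ hs1))
              (Submodule.smul_mem _ _ hz1))) (Submodule.smul_mem _ _ hsl))
    · by_cases hli : l = i
      · subst hli
        have e1 : x l / x j = s⁻¹ := by rw [hs]; field_simp
        rw [coord_1j x w n hij, e1, c1i, v1i, hDinv, sub_self]
        exact Submodule.zero_mem _
      · have hs1 : D k K s ∈ Submodule.span K ((v ∘ τ) '' {b | rk b < rk (1, l)}) := by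
          rw [← v1i]; exact mem (1, l) (1, i) (by rw [r1i, r1 l hli]; norm_num)
        by_cases hlj : l = j
        · subst hlj
          have e1 : x l = s * x i := by rw [hs]; field_simp
          rw [coord_1i, c1j, v1j]
          nth_rewrite 1 [e1]
          rw [Derivation.leibniz, add_sub_cancel_left]
          exact Submodule.smul_mem _ _ hs1
        · have e1 : x l / x j = (x l / x i) * s⁻¹ := by rw [hs]; field_simp
          rw [coord_1j x w n hlj, e1, c1l l hli hlj, v1l l hli hlj, Derivation.leibniz, hDinv,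
            add_sub_cancel_right]
          exact Submodule.smul_mem _ _ (Submodule.smul_mem _ _ hs1)

end Pool.Agent.Helper165
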