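import Pool.Agent.Helper165.Defs

set_option autoImplicit false

open KaehlerDifferential MvPolynomial

namespace Pool.Agent.Helper165

/-- If `K` is the rational function field `k(t_1, …, t_n)` then `dt_1 ∧ ⋯ ∧ dt_n ≠ 0`. -/
lemma form_ne_zero {k K : Type*} [Field k] [Field K] [Algebra k K] {n : ℕ} (t : Fin n → K)
    (hind : AlgebraicIndependent k t)
    (hfrac : ∀ φ : K, ∃ a ∈ Algebra.adjoin k (Set.range t), ∃ s ∈ Algebra.adjoin k (Set.range t),
      s ≠ 0 ∧ φ = a / s) :
    exteriorPower.ιMulti K n (fun i => D k K (t i)) ≠ 0 := by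
  classical
  let F : MvPolynomial (Fin n) k →ₐ[k] K := aeval t
  have hinj : Function.Injective F := hind
  let _ : Algebra (MvPolynomial (Fin n) k) K := F.toRingHom.toAlgebra
  have hFA : ∀ q, algebraMap (MvPolynomial (Fin n) k) K q = F q := fun q => rfl
  have : IsScalarTower k (MvPolynomial (Fin n) k) K := by
    apply IsScalarTower.of_algebraMap_eq
    intro c
    rw [hFA]
    exact (F.commutes c).symm
  have hadj : ∀ a ∈ Algebra.adjoin k (Set.range t), ∃ q, F q = a := by
    intro a ha
    rw [Algebra.adjoin_range_eq_range_aeval] at ha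
    exact ha
  have : IsFractionRing (MvPolynomial (Fin n) k) K := by
    have hinj' : Function.Injective (algebraMap (MvPolynomial (Fin n) k) K) := hinj
    refine ⟨?_, ?_, ?_⟩
    · rintro ⟨y, hy⟩
      rw [hFA]
      apply IsUnit.mk0
      intro h0
      exact nonZeroDivisors.ne_zero hy (hinj (by rw [h0, map_zero]))
    · intro φ
      obtain ⟨a, ha, s, hs, hs0, rfl⟩ := hfrac φ
      obtain ⟨q, rfl⟩ := hadj a ha
      obtain ⟨r, rfl⟩ := hadj s hs
      refine ⟨⟨q, ⟨r, ?_⟩⟩, ?_⟩
      · rw [mem_nonZeroDivisors_iff_ne_zero]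
        rintro rfl
        exact hs0 (map_zero _)
      · simp only [hFA]
        rw [div_mul_cancel₀ _ hs0]
    · intro x y hxy
      refine ⟨1, ?_⟩
      rw [hinj' hxy]
  let b : Module.Basis (Fin n) K (Ω[K⁄k]) :=
    (mvPolynomialBasis k (Fin n)).ofIsLocalizedModule K
      (nonZeroDivisors (MvPolynomial (Fin n) k)) (KaehlerDifferential.map k k
        (MvPolynomial (Fin n) k) K)
  have hb : ∀ i, b i = D k K (t i) := by
    intro i
    simp only [b, Module.Basis.ofIsLocalizedModule_apply, mvPolynomialBasis_apply,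
      KaehlerDifferential.map_D, hFA]
    simp [F]
  have hb' : (fun i => D k K (t i)) = b := by
    funext i; exact (hb i).symm
  rw [hb']
  intro h0
  have h1 := exteriorPower.alternatingMapLinearEquiv_apply_ιMulti b.det b
  rw [h0, map_zero, Module.Basis.det_self] at h1
  exact zero_ne_one h1

end Pool.Agent.Helper165
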