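import Pool.Agent.Helper165.ChartRing
import Pool.Agent.Helper165.Jac2
import Pool.Agent.Helper165.NonZero

set_option autoImplicit false

open KaehlerDifferential

universe u

namespace Pool.Agent.Helper165

section one

variable (p : ℕ) (k : Type u) [Field k] [hp : Fact p.Prime] [CharP k p]
variable {K : Type*} [Field K] (g : invariantRing p k →+* K)

/-- The coordinates of the `i`-th chart in a field `K`. -/
noncomputable def cK (i : Fin p) : Fin 2 × Fin p → K :=
  coord (fun j => g (xA p k j)) (fun j l => g (uA p k j l)) (fun j => g (nA p k j)) i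

lemma tC_1i (i : Fin p) : tC p k i (1, i) = toChart p k i (xA p k i) := by
  apply psiL_injective p k i
  rw [psiL_tC, psiL_toChart, tL_1i]
  rfl

lemma tC_0i (i : Fin p) : tC p k i (0, i) = toChart p k i (nA p k i) := by
  apply psiL_injective p k i
  rw [psiL_tC, psiL_toChart, tL_0i]
  rfl

lemma tC_1j {i j : Fin p} (h : j ≠ i) :
    tC p k i (1, j) * toChart p k i (xA p k i) = toChart p k i (xA p k j) := by
  apply psiL_injective p k i
  rw [map_mul, psiL_tC, psiL_toChart, psiL_toChart, tL_1j p k h]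
  exact div_mul_cancel₀ _ (algebraMap_X_ne_zero p k (1, i))

lemma tC_0j {i j : Fin p} (h : j ≠ i) :
    tC p k i (0, j) * toChart p k i (xA p k i) = toChart p k i (uA p k i j) := by
  apply psiL_injective p k i
  rw [map_mul, psiL_tC, psiL_toChart, psiL_toChart, tL_0j p k h]
  exact div_mul_cancel₀ _ (algebraMap_X_ne_zero p k (1, i))

lemma gamma_tC (i : Fin p) (γ : ChartRing p k i →+* K)
    (hγ : ∀ a, γ (toChart p k i a) = g a) (hx : g (xA p k i) ≠ 0) (a : Fin 2 × Fin p) :
    γ (tC p k i a) = cK p k g i a := by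
  obtain ⟨b, j⟩ := a
  by_cases h : j = i
  · subst h
    rcases fin2 b with rfl | rfl
    · rw [tC_0i, hγ]; unfold cK; rw [coord_0i]
    · rw [tC_1i, hγ]; unfold cK; rw [coord_1i]
  · rcases fin2 b with rfl | rfl
    · have h1 := congrArg γ (tC_0j p k h)
      rw [map_mul, hγ, hγ] at h1
      unfold cK
      rw [coord_0j _ _ _ h, eq_div_iff hx]
      exact h1
    · have h1 := congrArg γ (tC_1j p k h)
      rw [map_mul, hγ, hγ] at h1
      unfold cK
      rw [coord_1j _ _ _ h, eq_div_iff hx]
      exact h1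

lemma forms_eq [Algebra k K] (hg : Function.Injective g) (i j : Fin p)
    {N' : Type*} [AddCommGroup N'] [Module K N'] (f : Ω[K⁄k] [⋀^(Fin 2 × Fin p)]→ₗ[K] N') :
    f (fun a => D k K (cK p k g i a)) = f (fun a => D k K (cK p k g j a)) := by
  by_cases hij : i = j
  · rw [hij]
  have hch : CharP K p := charP_of_injective_algebraMap (algebraMap k K).injective p
  refine jac (k := k) (K := K) (fun j => g (xA p k j)) (fun j l => g (uA p k j l))
    (fun j => g (nA p k j)) ?_ ?_ ?_ ?_ j i (Ne.symm hij) f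
  · intro i h
    have h1 := (map_eq_zero_iff _ hg).1 h
    have h2 := congrArg Subtype.val h1
    exact MvPolynomial.X_ne_zero (R := k) ((1, i) : Fin 2 × Fin p) h2
  · intro i j
    rw [uA_anti, map_neg]
  · intro i j l
    have := congrArg g (plucker p k i j l)
    simpa only [map_add, map_sub, map_mul, map_zero] using this
  · intro i j
    have := congrArg g (norm_rel p k i j)
    simpa only [map_sub, map_mul, map_pow] using this

/-- The reindexing. -/
def eIdx : Fin (2 * p) ≃ Fin 2 × Fin p := finProdFinEquiv.symm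

omit hp in
lemma gamma_forms [hp : Fact p.Prime] [Algebra k K] (hg : Function.Injective g)
    (γ : ∀ i, ChartRing p k i →+* K)
    (hγ : ∀ i a, γ i (toChart p k i a) = g a) (i j : Fin p) :
    exteriorPower.ιMulti K (2 * p) (fun m => D k K (γ i (tC p k i (eIdx p m)))) =
      exteriorPower.ιMulti K (2 * p) (fun m => D k K (γ j (tC p k j (eIdx p m)))) := by
  have hx : ∀ i, g (xA p k i) ≠ 0 := by
    intro i h
    have h1 := (map_eq_zero_iff _ hg).1 h
    have h2 := congrArg Subtype.val h1
    exact MvPolynomial.X_ne_zero (R := k) ((1, i) : Fin 2 × Fin p) h2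
  have h0 : ∀ i, (fun m => D k K (γ i (tC p k i (eIdx p m)))) =
      (fun a => D k K (cK p k g i a)) ∘ (eIdx p) := by
    intro i
    funext m
    rw [gamma_tC p k g i (γ i) (hγ i) (hx i)]
    rfl
  rw [h0 i, h0 j]
  have h1 := forms_eq p k g hg i j
    ((exteriorPower.ιMulti K (M := Ω[K⁄k]) (2 * p)).domDomCongr (eIdx p))
  rw [AlternatingMap.domDomCongr_apply, AlternatingMap.domDomCongr_apply] at h1
  exact h1

end one

section two

variable {k K : Type*} [Field k] [Field K] [Algebra k K]

lemma isGenerator_of {n : ℕ} (O : Subring K) (t : Fin n → K)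
    (hind : AlgebraicIndependent k t)
    (hfrac : ∀ φ : K, ∃ a ∈ Algebra.adjoin k (Set.range t), ∃ s ∈ Algebra.adjoin k (Set.range t),
      s ≠ 0 ∧ φ = a / s)
    (hk : ∀ c : k, algebraMap k K c ∈ O) (ht : ∀ i, t i ∈ O)
    (hO : ∀ φ ∈ O, ∃ a ∈ Algebra.adjoin k (Set.range t), ∃ s ∈ Algebra.adjoin k (Set.range t),
      s ≠ 0 ∧ s⁻¹ ∈ O ∧ φ = a / s) :
    IsGenerator (differential k K) n (O : Set K)
      (exteriorPower.ιMulti K n (fun i => D k K (t i))) :=
  ⟨form_ne_zero t hind hfrac, regularForms_eq O t hk ht hO⟩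

variable {R : Type*} [CommRing R] [Algebra k R]

lemma mem_adjoin_of {ι : Type*} (t : ι → R)
    (ht : Function.Surjective (MvPolynomial.aeval t : MvPolynomial ι k →ₐ[k] R)) (γ : R →ₐ[k] K)
    (r : R) : γ r ∈ Algebra.adjoin k (Set.range (fun i => γ (t i))) := by
  obtain ⟨q, rfl⟩ := ht r
  rw [Algebra.adjoin_range_eq_range_aeval]
  refine ⟨q, ?_⟩
  have h : (MvPolynomial.aeval (fun i => γ (t i)) : MvPolynomial ι k →ₐ[k] K) =
      γ.comp (MvPolynomial.aeval t) := by
    apply MvPolynomial.algHom_ext
    intro i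
    simp
  exact congrArg (fun f => f q) h

lemma algInd_of {ι : Type*} (t : ι → R)
    (ht : Function.Injective (MvPolynomial.aeval t : MvPolynomial ι k →ₐ[k] R)) (γ : R →ₐ[k] K)
    (hγ : Function.Injective γ) : AlgebraicIndependent k (fun i => γ (t i)) := by
  have h : AlgebraicIndependent k t := ht
  exact h.map' hγ

end two

end Pool.Agent.Helper165
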