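import Mathlib

set_option autoImplicit false

open MvPolynomial

namespace Pool.Agent.Helper165

/-- An algebra which is a polynomial ring on finitely many elements is standard smooth of the
right relative dimension. -/
lemma isStandardSmooth_of_bijective {R : Type*} {S : Type*} [CommRing R] [CommRing S]
    [Algebra R S] {ι : Type} [Finite ι] (v : ι → S)
    (hv : Function.Bijective (aeval v : MvPolynomial ι R →ₐ[R] S)) :
    Algebra.IsStandardSmoothOfRelativeDimension (Nat.card ι) R S := by
  classical
  let P0 : Algebra.PreSubmersivePresentation R S ι PEmpty.{1} :=
  { toGenerators := .ofSurjective v hv.2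
    relation := PEmpty.elim
    span_range_relation_eq_ker := by
      rw [Set.range_eq_empty, Ideal.span_empty]
      symm
      rw [eq_bot_iff]
      intro z hz
      have h1 : (aeval v : MvPolynomial ι R →ₐ[R] S) z = 0 := hz
      have h2 : z = 0 := hv.1 (by rw [h1, map_zero])
      rw [h2]
      exact Ideal.zero_mem _
    map := PEmpty.elim
    map_inj := Function.injective_of_subsingleton _ }
  let P : Algebra.SubmersivePresentation R S ι PEmpty.{1} :=
  { __ := P0
    jacobian_isUnit := by
      rw [Algebra.PreSubmersivePresentation.jacobian_eq_jacobiMatrix_det, Matrix.det_isEmpty,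
        map_one]
      exact isUnit_one }
  refine P.isStandardSmoothOfRelativeDimension ?_
  simp [Algebra.Presentation.dimension]

end Pool.Agent.Helper165
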