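import Pool.Agent.Helper165.Geom3

set_option autoImplicit false

open AlgebraicGeometry CategoryTheory TopologicalSpace

universe u

namespace Pool.Agent.Helper165

variable (p : ℕ) (k : Type u) [Field k]

lemma dvd_of_dvd (i : Fin p) (a : invariantRing p k)
    (h : (MvPolynomial.X (1, i) : MvPolynomial (Fin 2 × Fin p) k) ∣ (a : MvPolynomial _ k)) :
    a ∈ Ideal.span {xA p k i} := by
  obtain ⟨c, hc⟩ := h
  have h1 : act (jordanSum p k) (a : MvPolynomial (Fin 2 × Fin p) k) = a :=
    (mem_invariantRing p k).1 a.2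
  have h2 : c ∈ invariantRing p k := by
    rw [mem_invariantRing]
    rw [hc, map_mul, act_X1] at h1
    exact mul_left_cancel₀ (MvPolynomial.X_ne_zero _) h1
  rw [Ideal.mem_span_singleton]
  exact ⟨⟨c, h2⟩, Subtype.ext hc⟩

lemma dvd_iff (i : Fin p) (a : invariantRing p k) : a ∈ Ideal.span {xA p k i} ↔
    (MvPolynomial.X (1, i) : MvPolynomial (Fin 2 × Fin p) k) ∣ (a : MvPolynomial _ k) := by
  refine ⟨?_, dvd_of_dvd p k i a⟩
  intro h
  rw [Ideal.mem_span_singleton] at h
  obtain ⟨c, rfl⟩ := h
  exact ⟨c, rfl⟩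

lemma span_x_prime (i : Fin p) : (Ideal.span {xA p k i} : Ideal (invariantRing p k)).IsPrime := by
  have hX : Prime (MvPolynomial.X (1, i) : MvPolynomial (Fin 2 × Fin p) k) :=
    MvPolynomial.X_prime
  constructor
  · rw [Ideal.ne_top_iff_one, dvd_iff]
    intro h
    exact hX.not_isUnit (isUnit_of_dvd_one h)
  · intro a b h
    rw [dvd_iff] at h ⊢
    rw [dvd_iff]
    exact hX.dvd_or_dvd h

/-- A point of codimension one of `X` does not lie on all the hypersurfaces `x_i = 0`. -/
lemma exists_notMem_of_coheight [hp : Fact p.Prime] (ξ : quotientScheme p k)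
    (hξ : Order.coheight ξ = 1) : ∃ i, ξ ∈ opD p k i := by
  by_contra hcon
  have hall : ∀ i, xA p k i ∈ PrimeSpectrum.asIdeal (R := invariantRing p k) ξ := by
    intro i
    by_contra h
    exact hcon ⟨i, h⟩
  let i : Fin p := ⟨0, hp.out.pos⟩
  let j : Fin p := ⟨1, hp.out.one_lt⟩
  have hij : j ≠ i := by
    intro h
    have := congrArg Fin.val h
    simp [i, j] at this
  let q : quotientScheme p k :=
    (⟨Ideal.span {xA p k i}, span_x_prime p k i⟩ : PrimeSpectrum (invariantRing p k))
  let η : quotientScheme p k := (⊥ : PrimeSpectrum (invariantRing p k))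
  have hspec : ∀ a b : quotientScheme p k,
      PrimeSpectrum.asIdeal (R := invariantRing p k) a ≤
        PrimeSpectrum.asIdeal (R := invariantRing p k) b ↔ a ⤳ b :=
    fun a b => PrimeSpectrum.le_iff_specializes a b
  have h1 : ξ < q := by
    refine ⟨?_, ?_⟩
    · change q ⤳ ξ
      rw [← hspec]
      change Ideal.span {xA p k i} ≤ _
      rw [Ideal.span_le]
      rintro z rfl
      exact hall i
    · intro h
      have h' : ξ ⤳ q := h
      rw [← hspec] at h'
      have h2 := h' (hall j)
      have h3 := (dvd_iff p k i _).1 h2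
      have h4 := MvPolynomial.X_dvd_X.1 h3
      exact hij (Prod.ext_iff.1 h4).2.symm
  have h2 : q < η := by
    refine ⟨?_, ?_⟩
    · change η ⤳ q
      rw [← hspec]
      exact bot_le
    · intro h
      have h' : q ⤳ η := h
      rw [← hspec] at h'
      have h2 : xA p k i ∈ (⊥ : Ideal (invariantRing p k)) :=
        h' (Ideal.mem_span_singleton_self _)
      exact xA_ne_zero p k i h2
  let S : LTSeries (quotientScheme p k) :=
    { length := 2
      toFun := ![ξ, q, η]
      step := by
        intro m
        fin_cases m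
        · exact h1
        · exact h2 }
  have h3 := Order.length_le_coheight_head (p := S)
  have h4 : S.head = ξ := rfl
  rw [h4, hξ] at h3
  have h5 : S.length = 2 := rfl
  rw [h5] at h3
  norm_num at h3

end Pool.Agent.Helper165
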