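import Pool.Agent.Helper165.GenChart

set_option autoImplicit false

open AlgebraicGeometry CategoryTheory TopologicalSpace

universe u

namespace Pool.Agent.Helper165

variable {Y : Scheme.{u}} [IsIntegral Y]

lemma constants_eq_germ {k : Type u} [Field k] (π : Y ⟶ Spec (CommRingCat.of k)) :
    constants π = ((Scheme.ΓSpecIso (CommRingCat.of k)).inv ≫ π.appTop ≫
      Y.presheaf.germ ⊤ (genericPoint Y) trivial).hom := by
  unfold constants
  congr 1
  apply Spec.map_injective
  rw [Spec.map_preimage, Spec.map_comp, Spec.map_comp, ← Scheme.fromSpecStalk_toSpecΓ,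
    Category.assoc, Category.assoc]
  congr 1
  rw [← Category.assoc, ← Scheme.toSpecΓ_naturality, Category.assoc, ← SpecMap_ΓSpecIso_hom,
    ← Spec.map_comp, Iso.inv_hom_id, Spec.map_id, Category.comp_id]

lemma constants_gMap {k : Type u} [Field k] {A : Type u} [CommRing A] [Algebra k A]
    (F : Y ⟶ Spec (CommRingCat.of A)) (c : k) :
    constants (F ≫ Spec.map (CommRingCat.ofHom (algebraMap k A))) c =
      gMap F (algebraMap k A c) := by
  have h0 : (Scheme.ΓSpecIso (CommRingCat.of k)).inv ≫
      (F ≫ Spec.map (CommRingCat.ofHom (algebraMap k A))).appTop ≫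
        Y.presheaf.germ ⊤ (genericPoint Y) trivial =
      CommRingCat.ofHom (algebraMap k A) ≫ (Scheme.ΓSpecIso (CommRingCat.of A)).inv ≫
        F.appTop ≫ Y.presheaf.germ ⊤ (genericPoint Y) trivial := by
    rw [Scheme.Hom.comp_appTop, ← Category.assoc (CommRingCat.ofHom (algebraMap k A)),
      Scheme.ΓSpecIso_inv_naturality]
    simp only [Category.assoc]
  rw [constants_eq_germ]
  exact congrArg (fun g => g.hom c) h0

end Pool.Agent.Helper165
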