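import Pool.Agent.Helper165.Const
import Pool.Agent.Helper165.Abs

set_option autoImplicit false

open AlgebraicGeometry CategoryTheory TopologicalSpace

universe u

namespace Pool.Agent.Helper165

variable {Y : Scheme.{u}} [IsIntegral Y]

lemma exists_frac_generic {R : Type u} [CommRing R] [Nontrivial R]
    (j : Spec (CommRingCat.of R) ⟶ Y) [IsOpenImmersion j] (φ : Y.functionField) :
    ∃ a s : R, gammaMap j s ≠ 0 ∧ φ = gammaMap j a / gammaMap j s := by
  have h : (𝟙 Y : Y ⟶ Y) (genericPoint Y) ⤳ genericPoint Y := specializes_rfl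
  have hφ : φ ∈ localSubring (𝟙 Y) (genericPoint Y) h := by
    obtain ⟨U, hx, s, rfl⟩ := Y.presheaf.exists_germ_eq φ
    rw [← secMap_id U hx s]
    exact secMap_mem (𝟙 Y) U (genericPoint Y) h hx s
  obtain ⟨a, s, h1, -, h3⟩ := exists_frac_chart j (genericPoint Y)
    (generic_mem _ (image_nonempty j)) h φ hφ
  exact ⟨a, s, h1, h3⟩

theorem crepant_of_charts {k : Type u} [Field k] {A : Type u} [CommRing A] [Algebra k A]
    (F : Y ⟶ Spec (CommRingCat.of A)) (n : ℕ) {I : Type} (R : I → Type u)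
    [∀ i, CommRing (R i)] [∀ i, Nontrivial (R i)] [∀ i, Algebra k (R i)]
    (j : ∀ i, Spec (CommRingCat.of (R i)) ⟶ Y) [∀ i, IsOpenImmersion (j i)]
    (φ : ∀ i, A →+* R i) (hφ : ∀ i, j i ≫ F = Spec.map (CommRingCat.ofHom (φ i)))
    (hφk : ∀ i c, φ i (algebraMap k A c) = algebraMap k (R i) c)
    (hφi : ∀ i, Function.Injective (φ i))
    (hcov : ∀ y : Y, ∃ i, y ∈ (j i ''ᵁ ⊤ : Y.Opens))
    (hspec : ∀ x, F (genericPoint Y) ⤳ x)
    (t : ∀ i, Fin n → R i)
    (ht : ∀ i, Function.Bijective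
      (MvPolynomial.aeval (t i) : MvPolynomial (Fin n) k →ₐ[k] R i))
    (s : I → A) (hs0 : ∀ i, s i ≠ 0)
    (hcodim : ∀ ξ : Spec (CommRingCat.of A), Order.coheight ξ = 1 →
      ∃ i, ξ ∈ (PrimeSpectrum.basicOpen (s i) : (Spec (CommRingCat.of A)).Opens))
    (htA : ∀ i m, ∃ a : A, φ i a = t i m * φ i (s i))
    (hω : ∀ (K : Type u) [Field K] [Algebra k K] (g : A →+* K) (_ : Function.Injective g)
      (γ : ∀ i, R i →+* K) (_ : ∀ i a, γ i (φ i a) = g a) (i i' : I),
      exteriorPower.ιMulti K n (fun m => KaehlerDifferential.D k K (γ i (t i m))) =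
      exteriorPower.ιMulti K n (fun m => KaehlerDifferential.D k K (γ i' (t i' m)))) :
    IsCrepant n F (Spec.map (CommRingCat.ofHom (algebraMap k A))) := by
  letI algK : Algebra k Y.functionField :=
    (constants (F ≫ Spec.map (CommRingCat.ofHom (algebraMap k A)))).toAlgebra
  intro y
  have halg : ∀ c, (algebraMap k Y.functionField : k →+* Y.functionField) c =
      gMap F (algebraMap k A c) := constants_gMap F
  have hγ : ∀ i a, gammaMap (j i) (φ i a) = gMap F a := fun i a =>
    gammaMap_comp (j i) F (φ i) (hφ i) a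
  obtain ⟨i, hi⟩ := hcov y
  have hg : Function.Injective (gMap F) := by
    intro a b h
    rw [← hγ i, ← hγ i] at h
    exact hφi i (gammaMap_injective (j i) h)
  let γ : ∀ i, R i →ₐ[k] Y.functionField := fun i =>
    { gammaMap (j i) with
      commutes' := fun c => by
        change gammaMap (j i) (algebraMap k (R i) c) = _
        rw [← hφk, hγ, halg] }
  have hγγ : ∀ i r, γ i r = gammaMap (j i) r := fun i r => rfl
  have hγinj : ∀ i, Function.Injective (γ i) := fun i => gammaMap_injective (j i)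
  have hind : ∀ i, AlgebraicIndependent k (fun m => γ i (t i m)) := fun i =>
    algInd_of (t i) (ht i).1 (γ i) (hγinj i)
  have hadj : ∀ i r, γ i r ∈ Algebra.adjoin k (Set.range (fun m => γ i (t i m))) := fun i r =>
    mem_adjoin_of (t i) (ht i).2 (γ i) r
  have hfrac : ∀ i, ∀ ψ : Y.functionField,
      ∃ a ∈ Algebra.adjoin k (Set.range (fun m => γ i (t i m))),
      ∃ s ∈ Algebra.adjoin k (Set.range (fun m => γ i (t i m))), s ≠ 0 ∧ ψ = a / s := by
    intro i ψ
    obtain ⟨a, s, h1, h2⟩ := exists_frac_generic (j i) ψ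
    exact ⟨γ i a, hadj i a, γ i s, hadj i s, h1, h2⟩
  have hωω := hω Y.functionField (gMap F) hg (fun i => (γ i).toRingHom) hγ
  refine ⟨exteriorPower.ιMulti Y.functionField n
    (fun m => KaehlerDifferential.D k Y.functionField (γ i (t i m))), ?_⟩
  rintro O (rfl | ⟨ξ, hξ, -, rfl⟩)
  · have h : (𝟙 Y : Y ⟶ Y) (genericPoint Y) ⤳ y := generic_specializes y
    rw [← localSubring_coe (𝟙 Y) y h]
    refine isGenerator_of (localSubring (𝟙 Y) y h) (fun m => γ i (t i m)) (hind i) (hfrac i)
      ?_ ?_ ?_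
    · intro c
      rw [← (γ i).commutes]
      exact gammaMap_mem (j i) y hi h _
    · intro m
      exact gammaMap_mem (j i) y hi h _
    · intro ψ hψ
      obtain ⟨a, s, h1, h2, h3⟩ := exists_frac_chart (j i) y hi h ψ hψ
      exact ⟨γ i a, hadj i a, γ i s, hadj i s, h1, h2, h3⟩
  · obtain ⟨i', hi'⟩ := hcodim ξ hξ
    have h := hspec ξ
    have e1 := hωω i i'
    have e2 : exteriorPower.ιMulti Y.functionField n
      (fun m => KaehlerDifferential.D k Y.functionField (γ i (t i m))) =
      exteriorPower.ιMulti Y.functionField n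
      (fun m => KaehlerDifferential.D k Y.functionField (γ i' (t i' m))) := e1
    rw [e2, ← localSubring_coe F ξ h]
    refine isGenerator_of (localSubring F ξ h) (fun m => γ i' (t i' m)) (hind i') (hfrac i')
      ?_ ?_ ?_
    · intro c
      rw [halg]
      exact gMap_mem F ξ h _
    · intro m
      obtain ⟨a, ha⟩ := htA i' m
      have h1 := congrArg (gammaMap (j i')) ha
      rw [map_mul, hγ, hγ] at h1
      have h2 : gMap F (s i') ≠ 0 := fun h0 => hs0 i' ((map_eq_zero_iff _ hg).1 h0)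
      have h3 : γ i' (t i' m) = gMap F a * (gMap F (s i'))⁻¹ := by
        rw [h1, hγγ, mul_assoc, mul_inv_cancel₀ h2, mul_one]
      rw [h3]
      exact Subring.mul_mem _ (gMap_mem F ξ h _) (inv_gMap_mem F ξ h _ hi')
    · intro ψ hψ
      obtain ⟨a, s, h1, h2, h3⟩ := exists_frac_target F ξ h ψ hψ
      refine ⟨gMap F a, ?_, gMap F s, ?_, h1, h2, h3⟩
      · rw [← hγ i']
        exact hadj i' _
      · rw [← hγ i']
        exact hadj i' _

end Pool.Agent.Helper165
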