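import Mathlib

set_option autoImplicit false

open AlgebraicGeometry CategoryTheory

universe u

namespace Pool.Agent.Helper165

/-- The algebra endomorphism `f ↦ f ∘ M` of the polynomial ring `k[V]`, for a square matrix `M`
acting on the affine space `V` with coordinates indexed by `ι`. -/
noncomputable def act {k ι : Type*} [Field k] [Fintype ι] (M : Matrix ι ι k) :
    MvPolynomial ι k →ₐ[k] MvPolynomial ι k :=
  MvPolynomial.aeval (fun i => ∑ j, MvPolynomial.C (M i j) * MvPolynomial.X j)

/-- The block diagonal matrix with `p` diagonal blocks equal to the Jordan block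
`J = (1 1; 0 1)`. -/
def jordanSum (p : ℕ) (k : Type*) [Field k] : Matrix (Fin 2 × Fin p) (Fin 2 × Fin p) k :=
  Matrix.blockDiagonal (fun _ : Fin p => !![1, 1; 0, 1])

/-- The ring of invariants `k[V]^G` of the group `G` generated by the matrix `J^{⊕ p}`
acting on `V = 𝔸^{2p}`. -/
noncomputable def invariantRing (p : ℕ) (k : Type*) [Field k] :
    Subalgebra k (MvPolynomial (Fin 2 × Fin p) k) :=
  AlgHom.equalizer (act (jordanSum p k)) (AlgHom.id k _)

/-- The quotient variety `X = Spec k[V]^G`. -/
noncomputable def quotientScheme (p : ℕ) (k : Type u) [Field k] : Scheme.{u} :=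
  Spec (CommRingCat.of (invariantRing p k))

/-- The structure morphism of `X = Spec k[V]^G` over `Spec k`. -/
noncomputable def quotientStructure (p : ℕ) (k : Type u) [Field k] :
    quotientScheme p k ⟶ Spec (CommRingCat.of k) :=
  Spec.map (CommRingCat.ofHom (algebraMap k (invariantRing p k)))

/-- For an integral `k`-scheme `Y` with function field `K` and structure morphism `π`, the
inclusion of `k` in `K`, that is the ring map given by `Spec K ⟶ Y ⟶ Spec k`. -/
noncomputable def constants {k : Type u} [Field k] {Y : Scheme.{u}} [IsIntegral Y]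
    (π : Y ⟶ Spec (CommRingCat.of k)) : k →+* Y.functionField :=
  (Spec.preimage (Y.fromSpecStalk (genericPoint Y) ≫ π)).hom

/-- The local ring `𝒪_{X,x}` of `X` at the point `x`, seen inside the function field of `Y`
through a morphism `f : Y ⟶ X`: the image of `𝒪_{X,x} ⟶ 𝒪_{X,f(η)} ⟶ 𝒪_{Y,η}`, where `η` is the
generic point of `Y`. For `f = 𝟙 Y` this is the local ring of `Y` at `x` seen in the function
field of `Y`. -/
def localRing {X Y : Scheme.{u}} [IsIntegral Y] (f : Y ⟶ X) (x : X) : Set Y.functionField :=
  {φ | ∃ h : f (genericPoint Y) ⤳ x,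
    φ ∈ (X.presheaf.stalkSpecializes h ≫ f.stalkMap (genericPoint Y)).hom.range}

/-- For a field `K`, a `K`-vector space `M` with a map `d : K → M` (in practice the universal
derivation `K → Ω_{K/k}`) and a subset `O` of `K` (in practice a local ring with fraction field
`K`), the rational `n`-forms which are regular on `O`: the additive subgroup of `⋀ⁿ M` generated
by the forms `g dv₁ ∧ ⋯ ∧ dvₙ` with `g, v₁, …, vₙ` in `O`. -/
noncomputable def regularForms {K M : Type*} [Field K] [AddCommGroup M] [Module K M] (d : K → M)
    (n : ℕ) (O : Set K) : AddSubgroup (⋀[K]^n M) :=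
  AddSubgroup.closure {ω | ∃ g ∈ O, ∃ v : Fin n → K, (∀ i, v i ∈ O) ∧
    ω = g • exteriorPower.ιMulti K n (fun i => d (v i))}

/-- The rational `n`-form `ω` is nonzero and the `n`-forms regular on `O` are the `O`-multiples
of `ω`. -/
def IsGenerator {K M : Type*} [Field K] [AddCommGroup M] [Module K M] (d : K → M) (n : ℕ)
    (O : Set K) (ω : ⋀[K]^n M) : Prop :=
  ω ≠ 0 ∧ ∀ η : ⋀[K]^n M, η ∈ regularForms d n O ↔ ∃ g ∈ O, η = g • ω

/-- Some rational `n`-form generates the `n`-forms regular on `O`, for every `O` in the family
`S`. -/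
def HasCommonGenerator {K M : Type*} [Field K] [AddCommGroup M] [Module K M] (d : K → M) (n : ℕ)
    (S : Set (Set K)) : Prop :=
  ∃ ω : ⋀[K]^n M, ∀ O ∈ S, IsGenerator d n O ω

/-- The universal derivation `d : K → Ω_{K/k}`. -/
noncomputable def differential (k K : Type*) [Field k] [Field K] [Algebra k K] :
    K → Ω[K⁄k] := KaehlerDifferential.D k K

/-- Crepancy of a birational morphism `f : Y ⟶ X` from a smooth `n`-dimensional variety to a
normal variety over `k` (structure morphism `π`), smooth in codimension one: around each point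
`y` of `Y` there is a rational `n`-form which is a local generator of the canonical sheaf of
`X` at `f y` (it generates the `n`-forms at each codimension one point of `X` specialising to
`f y`) and also a generator of the canonical sheaf of `Y` at `y`. In other words `K_X` is
Cartier and `K_Y = f^* K_X`, that is `K_{Y/X} = 0`. -/
def IsCrepant {k : Type u} [Field k] {X Y : Scheme.{u}} [IsIntegral Y] (n : ℕ)
    (f : Y ⟶ X) (π : X ⟶ Spec (CommRingCat.of k)) : Prop :=
  letI : Algebra k Y.functionField := (constants (f ≫ π)).toAlgebra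
  ∀ y : Y, HasCommonGenerator (differential k Y.functionField) n
    {O | O = localRing (𝟙 Y) y ∨ ∃ ξ : X, Order.coheight ξ = 1 ∧ ξ ⤳ f y ∧ O = localRing f ξ}

/-- `f : Y ⟶ X` is a crepant resolution of the `n`-dimensional normal `k`-variety `X`:
`Y` is integral and smooth over `k` of dimension `n`, `f` is proper and birational,
and `K_{Y/X} = 0`. -/
structure IsCrepantResolution {k : Type u} [Field k] {X Y : Scheme.{u}} [IsIntegral Y] (n : ℕ)
    (f : Y ⟶ X) (π : X ⟶ Spec (CommRingCat.of k)) : Prop where
  smooth : SmoothOfRelativeDimension n (f ≫ π)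
  proper : IsProper f
  birational : ∃ U : X.Opens, Dense (U : Set X) ∧ Dense ((f ⁻¹ᵁ U : Y.Opens) : Set Y) ∧
    IsIso (f ∣_ U)
  crepant : IsCrepant n f π

end Pool.Agent.Helper165
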