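import Pool.Agent.Helper165.Defs

set_option autoImplicit false

namespace Pool.Agent.Helper165

section det

variable {K M N : Type*} [Field K] [AddCommGroup M] [Module K M] [AddCommGroup N] [Module K N]

/-- An alternating map evaluated at linear combinations. -/
lemma alternating_det {n : ℕ} (f : M [⋀^Fin n]→ₗ[K] N) (w : Fin n → M)
    (c : Matrix (Fin n) (Fin n) K) :
    f (fun i => ∑ j, c i j • w j) = c.det • f w := by
  classical
  let Φ : (Fin n → K) →ₗ[K] M := Fintype.linearCombination K w
  have h1 : ∀ v : Fin n → K, Φ v = ∑ j, v j • w j := fun v => by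
    simp [Φ, Fintype.linearCombination_apply]
  have h : f.compLinearMap Φ = (LinearMap.toSpanSingleton K N (f w)).compAlternatingMap
      (Matrix.detRowAlternating (R := K) (n := Fin n)) := by
    refine Module.Basis.ext_alternating (Pi.basisFun K (Fin n)) fun i hi => ?_
    let σ : Equiv.Perm (Fin n) := Equiv.ofBijective i (Finite.injective_iff_bijective.1 hi)
    change (f.compLinearMap Φ) ((Pi.basisFun K (Fin n)) ∘ σ) =
      ((LinearMap.toSpanSingleton K N (f w)).compAlternatingMap
      (Matrix.detRowAlternating (R := K) (n := Fin n))) ((Pi.basisFun K (Fin n)) ∘ σ)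
    rw [AlternatingMap.map_perm, AlternatingMap.map_perm]
    congr 1
    have e1 : (f.compLinearMap Φ) (Pi.basisFun K (Fin n)) = f w := by
      rw [AlternatingMap.compLinearMap_apply]
      congr 1
      funext i
      simp [h1, Pi.basisFun_apply, Pi.single_apply]
    have e2 : (Matrix.detRowAlternating (R := K) (n := Fin n)) (Pi.basisFun K (Fin n)) = 1 := by
      have : (Pi.basisFun K (Fin n) : Fin n → Fin n → K) = (1 : Matrix (Fin n) (Fin n) K) := by
        ext i j
        simp [Pi.basisFun_apply, Matrix.one_apply, Pi.single_apply, eq_comm]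
      rw [this]
      exact Matrix.det_one
    rw [e1, LinearMap.compAlternatingMap_apply, e2]
    simp
  have h2 := AlternatingMap.congr_fun h (fun i j => c i j)
  rw [AlternatingMap.compLinearMap_apply, LinearMap.compAlternatingMap_apply,
    LinearMap.toSpanSingleton_apply] at h2
  have h3 : (fun i => ∑ j, c i j • w j) = fun i => Φ (fun j => c i j) := by
    funext i
    rw [h1]
  rw [h3, h2]
  rfl

end det

section forms

variable {k K : Type*} [Field k] [Field K] [Algebra k K]

open KaehlerDifferential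

/-- The differentials of the elements of a localization of `k[t]` are combinations of the
`dt_j` with coefficients in the localization. -/
lemma D_mem {ι : Type*} [Fintype ι] (O : Subring K) (t : ι → K)
    (hk : ∀ c : k, algebraMap k K c ∈ O) (ht : ∀ i, t i ∈ O)
    (hO : ∀ φ ∈ O, ∃ a ∈ Algebra.adjoin k (Set.range t), ∃ s ∈ Algebra.adjoin k (Set.range t),
      s ≠ 0 ∧ s⁻¹ ∈ O ∧ φ = a / s) (φ : K) (hφ : φ ∈ O) :
    ∃ c : ι → K, (∀ j, c j ∈ O) ∧ D k K φ = ∑ j, c j • D k K (t j) := by
  classical
  have hadj : ∀ a ∈ Algebra.adjoin k (Set.range t), a ∈ O := by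
    intro a ha
    induction ha using Algebra.adjoin_induction with
    | mem x hx =>
      obtain ⟨i, rfl⟩ := hx
      exact ht i
    | algebraMap r => exact hk r
    | add x y _ _ hx hy => exact O.add_mem hx hy
    | mul x y _ _ hx hy => exact O.mul_mem hx hy
  have key : ∀ a ∈ Algebra.adjoin k (Set.range t),
      ∃ c : ι → K, (∀ j, c j ∈ O) ∧ D k K a = ∑ j, c j • D k K (t j) := by
    intro a ha
    induction ha using Algebra.adjoin_induction with
    | mem x hx =>
      obtain ⟨i, rfl⟩ := hx
      refine ⟨Pi.single i 1, ?_, ?_⟩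
      · intro j
        by_cases h : j = i
        · subst h; rw [Pi.single_eq_same]; exact O.one_mem
        · rw [Pi.single_eq_of_ne h]; exact O.zero_mem
      · simp [Pi.single_apply]
    | algebraMap r => exact ⟨0, fun _ => O.zero_mem, by simp⟩
    | add x y _ _ hx hy =>
      obtain ⟨c, hc, hc'⟩ := hx
      obtain ⟨e, he, he'⟩ := hy
      refine ⟨c + e, fun j => O.add_mem (hc j) (he j), ?_⟩
      rw [map_add, hc', he', ← Finset.sum_add_distrib]
      simp [add_smul]
    | mul x y hx0 hy0 hx hy =>
      obtain ⟨c, hc, hc'⟩ := hx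
      obtain ⟨e, he, he'⟩ := hy
      refine ⟨fun j => x * e j + y * c j, fun j => O.add_mem (O.mul_mem (hadj x hx0) (he j))
        (O.mul_mem (hadj y hy0) (hc j)), ?_⟩
      rw [Derivation.leibniz, hc', he', Finset.smul_sum, Finset.smul_sum,
        ← Finset.sum_add_distrib]
      simp [add_smul, mul_smul]
  obtain ⟨a, ha, s, hs, hs0, hs1, rfl⟩ := hO φ hφ
  obtain ⟨c, hc, hc'⟩ := key a ha
  obtain ⟨e, he, he'⟩ := key s hs
  have haO := hadj a ha
  refine ⟨fun j => s⁻¹ * c j - (a * s⁻¹ * s⁻¹) * e j, fun j => O.sub_mem (O.mul_mem hs1 (hc j))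
    (O.mul_mem (O.mul_mem (O.mul_mem haO hs1) hs1) (he j)), ?_⟩
  have h1 : s⁻¹ • D k K (s * (a / s)) = s⁻¹ • D k K a := by
    congr 2
    field_simp
  rw [Derivation.leibniz, smul_add, smul_smul, inv_mul_cancel₀ hs0, one_smul] at h1
  have h2 : D k K (a / s) = s⁻¹ • D k K a - (s⁻¹ * (a / s)) • D k K s := by
    rw [← h1, smul_smul]
    abel
  rw [h2, hc', he', Finset.smul_sum, Finset.smul_sum, ← Finset.sum_sub_distrib]
  refine Finset.sum_congr rfl fun j _ => ?_
  rw [smul_smul, smul_smul, ← sub_smul]
  congr 1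
  field_simp

/-- The regular `n`-forms on a localization `O` of `k[t_1, …, t_n]` are generated by
`dt_1 ∧ ⋯ ∧ dt_n`. -/
lemma regularForms_eq {n : ℕ} (O : Subring K) (t : Fin n → K)
    (hk : ∀ c : k, algebraMap k K c ∈ O) (ht : ∀ i, t i ∈ O)
    (hO : ∀ φ ∈ O, ∃ a ∈ Algebra.adjoin k (Set.range t), ∃ s ∈ Algebra.adjoin k (Set.range t),
      s ≠ 0 ∧ s⁻¹ ∈ O ∧ φ = a / s) (η : ⋀[K]^n (Ω[K⁄k])) :
    η ∈ regularForms (differential k K) n (O : Set K) ↔
      ∃ g ∈ (O : Set K), η = g • exteriorPower.ιMulti K n (fun i => D k K (t i)) := by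
  constructor
  · intro hη'
    unfold regularForms at hη'
    induction hη' using AddSubgroup.closure_induction with
    | mem x hx =>
      obtain ⟨g, hg, v, hv, rfl⟩ := hx
      choose c hc hc' using fun i => D_mem O t hk ht hO (v i) (hv i)
      refine ⟨g * Matrix.det (Matrix.of c), O.mul_mem hg ?_, ?_⟩
      · rw [Matrix.det_apply]
        refine O.sum_mem fun σ _ => ?_
        rw [Units.smul_def, zsmul_eq_mul]
        refine O.mul_mem (intCast_mem O _) (O.prod_mem fun i _ => ?_)
        exact hc _ _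
      · have h1 : (fun i => D k K (v i)) = fun i => ∑ j, (Matrix.of c) i j • D k K (t j) := by
          funext i
          rw [hc' i]
          rfl
        have h2 : (fun i => differential k K (v i)) = (fun i => D k K (v i)) := rfl
        rw [h2, h1, alternating_det, smul_smul]
    | zero => exact ⟨0, O.zero_mem, by simp⟩
    | add x y hx0 hy0 hx hy =>
      obtain ⟨g, hg, rfl⟩ := hx
      obtain ⟨h, hh, rfl⟩ := hy
      exact ⟨g + h, O.add_mem hg hh, (add_smul g h _).symm⟩
    | neg x hx0 hx =>
      obtain ⟨g, hg, rfl⟩ := hx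
      exact ⟨-g, O.neg_mem hg, (neg_smul g _).symm⟩
  · rintro ⟨g, hg, rfl⟩
    exact AddSubgroup.subset_closure ⟨g, hg, t, ht, rfl⟩

end forms

end Pool.Agent.Helper165
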