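import Pool.Agent.Helper165.LocalRing

set_option autoImplicit false

open AlgebraicGeometry CategoryTheory TopologicalSpace

universe u

namespace Pool.Agent.Helper165

variable {Y : Scheme.{u}} [IsIntegral Y]

lemma generic_mem (V : Y.Opens) (h : (V : Set Y).Nonempty) : genericPoint Y ∈ V :=
  ((genericPoint_spec Y).mem_open_set_iff V.isOpen).2 (by simpa using h)

lemma generic_specializes (y : Y) : genericPoint Y ⤳ y :=
  (genericPoint_spec Y).specializes trivial

/-- Global functions of an affine target, in the function field. -/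
noncomputable def gMap {A : Type u} [CommRing A] (F : Y ⟶ Spec (CommRingCat.of A)) :
    A →+* Y.functionField :=
  (secMap F ⊤ trivial).comp (Scheme.ΓSpecIso (CommRingCat.of A)).inv.hom

variable {R : Type u} [CommRing R] [Nontrivial R] (j : Spec (CommRingCat.of R) ⟶ Y)
  [IsOpenImmersion j]

omit [IsIntegral Y] in
lemma image_nonempty : ((j ''ᵁ ⊤ : Y.Opens) : Set Y).Nonempty := by
  obtain ⟨m, hm⟩ := Ideal.exists_maximal R
  have z : Spec (CommRingCat.of R) := (⟨m, hm.isPrime⟩ : PrimeSpectrum R)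
  exact ⟨j z, ⟨z, trivial, rfl⟩⟩

/-- The ring of an affine chart is the ring of sections. -/
noncomputable def thetaMap : R →+* Γ(Y, j ''ᵁ ⊤) :=
  ((Scheme.ΓSpecIso (CommRingCat.of R)).inv ≫ (j.appIso ⊤).inv).hom

omit [IsIntegral Y] [Nontrivial R] in
lemma thetaMap_bijective : Function.Bijective (thetaMap j) := by
  have h : IsIso ((Scheme.ΓSpecIso (CommRingCat.of R)).inv ≫ (j.appIso ⊤).inv) := inferInstance
  exact ConcreteCategory.bijective_of_isIso
    ((Scheme.ΓSpecIso (CommRingCat.of R)).inv ≫ (j.appIso ⊤).inv)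

/-- The ring of an affine chart inside the function field. -/
noncomputable def gammaMap : R →+* Y.functionField :=
  (secMap (𝟙 Y) (j ''ᵁ ⊤) (generic_mem _ (image_nonempty j))).comp (thetaMap j)

lemma secMap_id (V : Y.Opens) (hV : genericPoint Y ∈ V) (s : Γ(Y, V)) :
    secMap (𝟙 Y) V hV s = Y.presheaf.germ V (genericPoint Y) hV s := by
  unfold secMap
  rw [Scheme.Hom.id_app]
  rfl

lemma gammaMap_injective : Function.Injective (gammaMap j) := by
  intro a b h
  have h' : secMap (𝟙 Y) (j ''ᵁ ⊤) (generic_mem _ (image_nonempty j)) (thetaMap j a) =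
    secMap (𝟙 Y) (j ''ᵁ ⊤) (generic_mem _ (image_nonempty j)) (thetaMap j b) := h
  rw [secMap_id, secMap_id] at h'
  exact (thetaMap_bijective j).1 (germ_injective_of_isIntegral _ _
    (generic_mem _ (image_nonempty j)) h')

lemma gammaMap_comp {A : Type u} [CommRing A] (F : Y ⟶ Spec (CommRingCat.of A)) (φ : A →+* R)
    (h : j ≫ F = Spec.map (CommRingCat.ofHom φ)) (a : A) :
    gammaMap j (φ a) = gMap F a := by
  have h1 : CommRingCat.ofHom φ ≫ (Scheme.ΓSpecIso (CommRingCat.of R)).inv ≫ (j.appIso ⊤).inv =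
      (Scheme.ΓSpecIso (CommRingCat.of A)).inv ≫ F.appTop ≫
        Y.presheaf.map (homOfLE le_top).op := by
    rw [← Category.assoc, Scheme.ΓSpecIso_inv_naturality, ← h, Scheme.Hom.comp_appTop]
    simp only [Category.assoc]
    congr 2
    exact j.app_appIso_inv ⊤
  have h2 : thetaMap j (φ a) = Y.presheaf.map (homOfLE le_top).op
      (F.appTop ((Scheme.ΓSpecIso (CommRingCat.of A)).inv a)) := by
    have := congrArg (fun g => g.hom a) h1
    exact this
  have h3 : gammaMap j (φ a) =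
      Y.presheaf.germ (j ''ᵁ ⊤) (genericPoint Y) (generic_mem _ (image_nonempty j))
        (thetaMap j (φ a)) := secMap_id _ _ _
  rw [h3, h2]
  exact Y.presheaf.germ_res_apply (homOfLE le_top) (genericPoint Y) _ _

/-- Elements of the local ring of `Y` at a point of the chart are fractions. -/
lemma exists_frac_chart (y : Y) (hy : y ∈ (j ''ᵁ ⊤ : Y.Opens)) (h : (𝟙 Y : Y ⟶ Y) (genericPoint Y) ⤳ y)
    (φ : Y.functionField) (hφ : φ ∈ localSubring (𝟙 Y) y h) :
    ∃ a s : R, gammaMap j s ≠ 0 ∧ (gammaMap j s)⁻¹ ∈ localSubring (𝟙 Y) y h ∧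
      φ = gammaMap j a / gammaMap j s := by
  have hV : IsAffineOpen (j ''ᵁ ⊤ : Y.Opens) := (isAffineOpen_top _).image_of_isOpenImmersion j
  obtain ⟨a, s, h1, h2, h3⟩ := exists_frac_of_mem (𝟙 Y) (j ''ᵁ ⊤) hV y h hy φ hφ
  obtain ⟨a', rfl⟩ := (thetaMap_bijective j).2 a
  obtain ⟨s', rfl⟩ := (thetaMap_bijective j).2 s
  exact ⟨a', s', h1, h2, h3⟩

lemma gammaMap_mem (y : Y) (hy : y ∈ (j ''ᵁ ⊤ : Y.Opens)) (h : (𝟙 Y : Y ⟶ Y) (genericPoint Y) ⤳ y)
    (a : R) : gammaMap j a ∈ localSubring (𝟙 Y) y h :=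
  secMap_mem (𝟙 Y) (j ''ᵁ ⊤) y h hy (thetaMap j a)

section target

variable {A : Type u} [CommRing A] (F : Y ⟶ Spec (CommRingCat.of A))

lemma gMap_mem (x : Spec (CommRingCat.of A)) (h : F (genericPoint Y) ⤳ x) (a : A) :
    gMap F a ∈ localSubring F x h :=
  secMap_mem F ⊤ x h trivial _

lemma exists_frac_target (x : Spec (CommRingCat.of A)) (h : F (genericPoint Y) ⤳ x)
    (φ : Y.functionField) (hφ : φ ∈ localSubring F x h) :
    ∃ a s : A, gMap F s ≠ 0 ∧ (gMap F s)⁻¹ ∈ localSubring F x h ∧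
      φ = gMap F a / gMap F s := by
  obtain ⟨a, s, h1, h2, h3⟩ := exists_frac_of_mem F ⊤ (isAffineOpen_top _) x h trivial φ hφ
  have hbij : Function.Bijective (Scheme.ΓSpecIso (CommRingCat.of A)).inv :=
    ConcreteCategory.bijective_of_isIso _
  obtain ⟨a', rfl⟩ := hbij.2 a
  obtain ⟨s', rfl⟩ := hbij.2 s
  exact ⟨a', s', h1, h2, h3⟩

lemma inv_gMap_mem (x : Spec (CommRingCat.of A)) (h : F (genericPoint Y) ⤳ x) (s : A)
    (hs : x ∈ (PrimeSpectrum.basicOpen s : (Spec (CommRingCat.of A)).Opens)) :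
    (gMap F s)⁻¹ ∈ localSubring F x h := by
  set s' : Γ(Spec (CommRingCat.of A), ⊤) := (Scheme.ΓSpecIso (CommRingCat.of A)).inv s with hs'
  have h1 : (Spec (CommRingCat.of A)).basicOpen s' =
      (PrimeSpectrum.basicOpen s : (Spec (CommRingCat.of A)).Opens) := by
    rw [basicOpen_eq_of_affine']
    congr 1
    have := congrArg (fun g => g.hom s) (Scheme.ΓSpecIso (CommRingCat.of A)).inv_hom_id
    exact this
  have h2 : x ∈ (Spec (CommRingCat.of A)).basicOpen s' := by rw [h1]; exact hs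
  rw [Scheme.mem_basicOpen _ _ _ (show x ∈ (⊤ : (Spec (CommRingCat.of A)).Opens) from trivial)] at h2
  obtain ⟨t, ht⟩ := h2.exists_right_inv
  refine ⟨t, ?_⟩
  have h3 := congrArg (locMap F x h).hom ht
  rw [map_mul, map_one] at h3
  have h4 := locMap_germ F x h ⊤ trivial trivial s'
  have h5 : gMap F s * (locMap F x h).hom t = 1 := by
    rw [← h3]
    congr 1
    exact h4.symm
  exact eq_inv_of_mul_eq_one_right h5

end target

end Pool.Agent.Helper165
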