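import Pool.Agent.Helper165.ChartRing

set_option autoImplicit false

open HomogeneousLocalization AlgebraicGeometry CategoryTheory TopologicalSpace

universe u

namespace Pool.Agent.Helper165

section general

variable {A : Type u} [CommRing A] (J : Ideal A)

/-- If a relevant homogeneous prime contained all elements `b T` with `b ∈ J`, it would contain
the irrelevant ideal. -/
lemma not_all_mem (y : ProjectiveSpectrum (reesPiece J))
    (h : ∀ (b : A) (hb : b ∈ J), tElt J b hb ∈ y.asHomogeneousIdeal) : False := by
  have key : ∀ (n : ℕ) (b : A) (hb : b ∈ J ^ (n + 1)),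
      reesMon J (n + 1) b hb ∈ y.asHomogeneousIdeal := by
    intro n b hb
    have hb' := hb
    rw [pow_succ] at hb'
    induction hb' using Submodule.smul_induction_on' with
    | smul a ha c hc =>
      have : reesMon J (n + 1) (a • c) hb = reesMon J n a ha * tElt J c hc := by
        apply Subtype.ext
        simp only [reesMon, tElt, smul_eq_mul]
        change _ = Polynomial.monomial n a * Polynomial.monomial 1 c
        rw [Polynomial.monomial_mul_monomial]
      rw [this]
      exact Ideal.mul_mem_left _ _ (h c hc)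
    | add a ha c hc iha ihc =>
      have ha' : a ∈ J ^ (n + 1) := by rw [pow_succ]; exact ha
      have hc' : c ∈ J ^ (n + 1) := by rw [pow_succ]; exact hc
      have : reesMon J (n + 1) (a + c) hb = reesMon J (n + 1) a ha' +
          reesMon J (n + 1) c hc' := by
        apply Subtype.ext
        simp only [reesMon]
        change _ = Polynomial.monomial (n + 1) a + Polynomial.monomial (n + 1) c
        rw [map_add]
      rw [this]
      exact Ideal.add_mem _ (iha ha') (ihc hc')
  apply y.not_irrelevant_le
  intro z hz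
  have hz0 := (HomogeneousIdeal.mem_irrelevant_iff _ _).1 hz
  rw [GradedRing.proj_apply] at hz0
  change z ∈ y.asHomogeneousIdeal.toIdeal
  classical
  rw [← DirectSum.sum_support_decompose (reesPiece J) z]
  apply Ideal.sum_mem
  intro i _
  cases i with
  | zero =>
    rw [hz0]
    exact Ideal.zero_mem _
  | succ n =>
    rw [eq_reesMon J (DirectSum.decompose (reesPiece J) z (n + 1)).2]
    exact key n _ _

lemma mem_of_relation (y : ProjectiveSpectrum (reesPiece J)) (p : ℕ) (hp : 2 ≤ p)
    (xi xj ni nj u : A) (hxi : xi ∈ J) (hxj : xj ∈ J) (hu : u ∈ J)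
    (hrel : xi ^ p * nj - xj ^ p * ni = u ^ p - (xi * xj) ^ (p - 1) * u)
    (h1 : tElt J xi hxi ∈ y.asHomogeneousIdeal) (h2 : tElt J xj hxj ∈ y.asHomogeneousIdeal) :
    tElt J u hu ∈ y.asHomogeneousIdeal := by
  have hrel' : tElt J u hu ^ p = tElt J xi hxi * (tElt J xi hxi ^ (p - 2) *
      algebraMap A (reesAlgebra J) xj ^ (p - 1) * tElt J u hu) +
      (tElt J xi hxi * (tElt J xi hxi ^ (p - 1) * algebraMap A (reesAlgebra J) nj) -
      tElt J xj hxj * (tElt J xj hxj ^ (p - 1) * algebraMap A (reesAlgebra J) ni)) := by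
    apply Subtype.ext
    have e1 : ∀ a (ha : a ∈ J), ((tElt J a ha : reesAlgebra J) : Polynomial A) =
        Polynomial.C a * Polynomial.X := by
      intro a ha
      simp [tElt, reesMon, Polynomial.C_mul_X_eq_monomial]
    have e2 : ∀ a, ((algebraMap A (reesAlgebra J) a : reesAlgebra J) : Polynomial A) =
        Polynomial.C a := by
      intro a; rfl
    simp only [Subalgebra.coe_pow, Subalgebra.coe_add, Subalgebra.coe_sub,
      Subalgebra.coe_mul, e1, e2]
    obtain ⟨m, rfl⟩ : ∃ m, p = m + 2 := ⟨p - 2, by omega⟩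
    have hN := congrArg (Polynomial.C) hrel
    simp only [map_sub, map_mul, map_pow, show m + 2 - 1 = m + 1 from rfl] at hN
    simp only [show m + 2 - 1 = m + 1 from rfl, show m + 2 - 2 = m from rfl]
    linear_combination (- Polynomial.X ^ (m + 2)) * hN
  have hmem : tElt J u hu ^ p ∈ y.asHomogeneousIdeal.toIdeal := by
    rw [hrel']
    refine Ideal.add_mem _ (Ideal.mul_mem_right _ _ h1)
      (Ideal.sub_mem _ (Ideal.mul_mem_right _ _ h1) (Ideal.mul_mem_right _ _ h2))
  exact y.isPrime.mem_of_pow_mem _ hmem

lemma false_of_span (y : ProjectiveSpectrum (reesPiece J)) (S : Set A) (hS : J = Ideal.span S)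
    (h : ∀ s (_ : s ∈ S) (hs : s ∈ J), tElt J s hs ∈ y.asHomogeneousIdeal) : False := by
  apply not_all_mem J y
  intro b hb
  have hb' := hb
  rw [hS] at hb'
  have key : ∀ b ∈ Ideal.span S, ∃ hb : b ∈ J, tElt J b hb ∈ y.asHomogeneousIdeal := by
    intro b hb
    induction hb using Submodule.span_induction with
    | mem b hb' =>
      have hbJ : b ∈ J := by rw [hS]; exact Ideal.subset_span hb'
      exact ⟨hbJ, h b hb' hbJ⟩
    | zero =>
      refine ⟨Ideal.zero_mem _, ?_⟩
      have : tElt J 0 (Ideal.zero_mem _) = 0 := by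
        apply Subtype.ext
        simp [tElt, reesMon]
      rw [this]
      exact Ideal.zero_mem _
    | add a c _ _ iha ihc =>
      obtain ⟨ha, ha'⟩ := iha
      obtain ⟨hc, hc'⟩ := ihc
      refine ⟨Ideal.add_mem _ ha hc, ?_⟩
      have : tElt J (a + c) (Ideal.add_mem _ ha hc) = tElt J a ha + tElt J c hc := by
        apply Subtype.ext
        simp only [tElt, reesMon]
        change _ = Polynomial.monomial 1 a + Polynomial.monomial 1 c
        rw [map_add]
      rw [this]
      exact Ideal.add_mem _ ha' hc'
    | smul a c _ ihc =>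
      obtain ⟨hc, hc'⟩ := ihc
      refine ⟨Ideal.mul_mem_left _ _ hc, ?_⟩
      have : tElt J (a • c) (Ideal.mul_mem_left _ _ hc) =
          algebraMap A (reesAlgebra J) a * tElt J c hc := by
        apply Subtype.ext
        simp only [tElt, reesMon, smul_eq_mul]
        change _ = Polynomial.C a * Polynomial.monomial 1 c
        rw [Polynomial.C_mul_monomial]
      rw [this]
      exact Ideal.mul_mem_left _ _ hc'
  obtain ⟨_, h2⟩ := key b hb'
  exact h2

end general

section special

variable (p : ℕ) (k : Type u) [Field k]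

/-- The element `x_i T`. -/
noncomputable abbrev xT (i : Fin p) : reesAlgebra (idealJ p k) :=
  tElt (idealJ p k) (xA p k i) (xA_mem_J p k i)

lemma exists_xT_notMem [hp : Fact p.Prime] [CharP k p]
    (y : ProjectiveSpectrum (reesPiece (idealJ p k))) :
    ∃ i, xT p k i ∉ y.asHomogeneousIdeal := by
  by_contra hcon
  have hcon' : ∀ i, xT p k i ∈ y.asHomogeneousIdeal := by
    intro i
    by_contra h
    exact hcon ⟨i, h⟩
  refine false_of_span (idealJ p k) y _ rfl ?_
  rintro s (⟨j, rfl⟩ | ⟨⟨j, l⟩, rfl⟩) hs
  · exact hcon' j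
  · exact mem_of_relation (idealJ p k) y p hp.out.two_le _ _ _ _ _ _ _ _ (norm_rel p k j l)
      (hcon' j) (hcon' l)

end special

end Pool.Agent.Helper165
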