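import Pool.Agent.Helper165.Geom2

set_option autoImplicit false

open HomogeneousLocalization AlgebraicGeometry CategoryTheory TopologicalSpace

universe u

namespace Pool.Agent.Helper165

lemma smooth_hasRingHomProperty (n : ℕ) :
    HasRingHomProperty (@SmoothOfRelativeDimension.{u} n)
      (RingHom.Locally (RingHom.IsStandardSmoothOfRelativeDimension n)) := inferInstance

instance smooth_isZariskiLocalAtSource (n : ℕ) :
    IsZariskiLocalAtSource (@SmoothOfRelativeDimension.{u} n) :=
  @HasRingHomProperty.instIsZariskiLocalAtSource _ _ (smooth_hasRingHomProperty n)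

instance smooth_respectsIso (n : ℕ) :
    MorphismProperty.RespectsIso (@SmoothOfRelativeDimension.{u} n) :=
  (smooth_isZariskiLocalAtSource n).toRespects

variable (p : ℕ) (k : Type u) [Field k]

/-- The resolution: the blowup of `X` in the ideal `J = (x_i, u_ij)`. -/
noncomputable def resY : Scheme.{u} := blow (idealJ p k)

/-- The resolution morphism. -/
noncomputable def resF : resY p k ⟶ quotientScheme p k := blowMap (idealJ p k)

/-- The `i`-th chart of the resolution. -/
noncomputable def chart (i : Fin p) : Spec (CommRingCat.of (ChartRing p k i)) ⟶ resY p k :=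
  blowChart (idealJ p k) (xA p k i) (xA_mem_J p k i)

instance (i : Fin p) : IsOpenImmersion (chart p k i) :=
  inferInstanceAs (IsOpenImmersion (blowChart (idealJ p k) (xA p k i) (xA_mem_J p k i)))

lemma chart_opensRange (i : Fin p) : (chart p k i).opensRange =
    (Proj.basicOpen (reesPiece (idealJ p k)) (xT p k i) : (Proj (reesPiece (idealJ p k))).Opens) :=
  blowChart_opensRange _ _ _

lemma chart_resF (i : Fin p) :
    chart p k i ≫ resF p k = Spec.map (CommRingCat.ofHom (toChart p k i)) :=
  blowChart_blowMap _ _ _

lemma chart_resF_structure (i : Fin p) :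
    chart p k i ≫ resF p k ≫ quotientStructure p k =
      Spec.map (CommRingCat.ofHom (algebraMap k (ChartRing p k i))) := by
  rw [← Category.assoc, chart_resF]
  unfold quotientStructure
  exact (Spec.map_comp _ _).symm

variable [hp : Fact p.Prime] [CharP k p]

lemma exists_chart (y : resY p k) : ∃ i, y ∈ (chart p k i).opensRange := by
  obtain ⟨i, hi⟩ := exists_xT_notMem p k y
  refine ⟨i, ?_⟩
  have h : y ∈ (Proj.basicOpen (reesPiece (idealJ p k)) (xT p k i) :
    (Proj (reesPiece (idealJ p k))).Opens) := hi
  rw [← chart_opensRange] at h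
  exact h

lemma iSup_chart : ⨆ i, (chart p k i).opensRange = ⊤ := by
  rw [eq_top_iff]
  intro y _
  rw [Opens.mem_iSup]
  exact exists_chart p k y

lemma resY_smooth : SmoothOfRelativeDimension (2 * p) (resF p k ≫ quotientStructure p k) := by
  rw [IsZariskiLocalAtSource.iff_of_iSup_eq_top (P := @SmoothOfRelativeDimension (2 * p))
    (fun i : Fin p => (chart p k i).opensRange) (iSup_chart p k)]
  intro i
  rw [← MorphismProperty.cancel_left_of_respectsIso (P := @SmoothOfRelativeDimension (2 * p))
    (chart p k i).isoOpensRange.hom]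
  rw [← Category.assoc, Scheme.Hom.isoOpensRange_hom_ι, chart_resF_structure,
    HasRingHomProperty.Spec_iff (P := @SmoothOfRelativeDimension (2 * p))]
  apply RingHom.locally_of RingHom.isStandardSmoothOfRelativeDimension_respectsIso
  have h := chart_smooth p k i
  exact (RingHom.isStandardSmoothOfRelativeDimension_algebraMap (2 * p)).2 h

omit hp [CharP k p] in
lemma xA_ne_zero (i : Fin p) : xA p k i ≠ 0 := by
  intro h
  have := congrArg Subtype.val h
  exact MvPolynomial.X_ne_zero (R := k) ((1, i) : Fin 2 × Fin p) this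

/-- The index zero. -/
def i0 : Fin p := ⟨0, hp.out.pos⟩

omit [CharP k p] in
lemma resY_integral : IsIntegral (resY p k) :=
  blow_integral (idealJ p k) (xA p k (i0 p)) (xA_mem_J p k _) (xA_ne_zero p k _)

omit hp [CharP k p] in
lemma resF_proper : IsProper (resF p k) := blowMap_isProper _ (idealJ_fg p k)

/-- The open subset `x_i ≠ 0` of `X`. -/
noncomputable def opD (i : Fin p) : (quotientScheme p k).Opens :=
  (PrimeSpectrum.basicOpen (xA p k i) : (Spec (CommRingCat.of (invariantRing p k))).Opens)

omit hp [CharP k p] in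
lemma resF_isIso (i : Fin p) : IsIso (resF p k ∣_ opD p k i) :=
  isIso_blowMap_restrict (idealJ p k) (xA p k i) (xA_mem_J p k i) (xA_ne_zero p k i)

omit hp [CharP k p] in
lemma quotient_integral : IsIntegral (quotientScheme p k) :=
  inferInstanceAs (IsIntegral (Spec (CommRingCat.of (invariantRing p k))))

omit hp [CharP k p] in
lemma opD_nonempty (i : Fin p) : (opD p k i : Set (quotientScheme p k)).Nonempty := by
  refine ⟨(⊥ : PrimeSpectrum (invariantRing p k)), ?_⟩
  change xA p k i ∉ (⊥ : PrimeSpectrum (invariantRing p k)).asIdeal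
  intro h
  have h2 : xA p k i ∈ (⊥ : Ideal (invariantRing p k)) := h
  exact xA_ne_zero p k i h2

omit [CharP k p] in
lemma resF_birational : ∃ U : (quotientScheme p k).Opens, Dense (U : Set (quotientScheme p k)) ∧
    Dense ((resF p k ⁻¹ᵁ U : (resY p k).Opens) : Set (resY p k)) ∧ IsIso (resF p k ∣_ U) := by
  have h1 := quotient_integral p k
  have h2 := resY_integral p k
  refine ⟨opD p k (i0 p), ?_, ?_, resF_isIso p k _⟩
  · exact (opD p k (i0 p)).isOpen.dense (opD_nonempty p k _)
  · apply (resF p k ⁻¹ᵁ (opD p k (i0 p))).isOpen.dense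
    obtain ⟨z, hz⟩ := opD_nonempty p k (i0 p)
    have h3 := resF_isIso p k (i0 p)
    obtain ⟨w, -⟩ := (resF p k ∣_ opD p k (i0 p)).surjective ⟨z, hz⟩
    exact ⟨w.1, w.2⟩

end Pool.Agent.Helper165
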