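import Pool.Agent.Helper165.Forms

set_option autoImplicit false

namespace Pool.Agent.Helper165

section alt

variable {K M N ι : Type*} [Field K] [AddCommGroup M] [Module K M] [AddCommGroup N] [Module K N]
  [Fintype ι] [DecidableEq ι]

lemma alt_update_span (f : M [⋀^ι]→ₗ[K] N) (u : ι → M) (a : ι) (r : M)
    (hr : r ∈ Submodule.span K (u '' {b | b ≠ a})) : f (Function.update u a r) = 0 := by
  induction hr using Submodule.span_induction with
  | mem x hx =>
    obtain ⟨b, hb, rfl⟩ := hx
    exact f.map_update_self u (Ne.symm hb)
  | zero => exact f.map_update_zero u a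
  | add x y _ _ hx hy => rw [f.map_update_add, hx, hy, add_zero]
  | smul c x _ hx => rw [f.map_update_smul, hx, smul_zero]

lemma alt_step (f : M [⋀^ι]→ₗ[K] N) (u w : ι → M) (c : ι → K) (S : Finset ι)
    (h : ∀ a ∈ S, w a - c a • u a ∈ Submodule.span K (u '' {b | b ∉ S})) :
    f (S.piecewise w u) = (∏ a ∈ S, c a) • f u := by
  have key : ∀ T : Finset ι, T ⊆ S → f (T.piecewise w u) = (∏ a ∈ T, c a) • f u := by
    intro T
    induction T using Finset.induction_on with
    | empty => intro _; simp
    | insert a T ha ih =>
      intro hTS
      have haS : a ∈ S := hTS (Finset.mem_insert_self a T)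
      have hTS' : T ⊆ S := fun x hx => hTS (Finset.mem_insert_of_mem hx)
      rw [Finset.piecewise_insert]
      have e1 : w a = c a • u a + (w a - c a • u a) := by abel
      rw [e1, f.map_update_add, f.map_update_smul]
      have e2 : Function.update (T.piecewise w u) a (u a) = T.piecewise w u := by
        have : u a = T.piecewise w u a := by simp [ha]
        rw [this, Function.update_eq_self]
      have e3 : f (Function.update (T.piecewise w u) a (w a - c a • u a)) = 0 := by
        apply alt_update_span
        refine Submodule.span_mono ?_ (h a haS)
        rintro x ⟨b, hb, rfl⟩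
        refine ⟨b, ?_, ?_⟩
        · rintro rfl
          exact hb haS
        · have hbT : b ∉ T := fun hbT => hb (hTS' hbT)
          simp [hbT]
      rw [e2, e3, add_zero, ih hTS', Finset.prod_insert ha, smul_smul]
  exact key S (Finset.Subset.refl S)

/-- Triangular change of a family in an alternating map. -/
lemma alt_triangular (f : M [⋀^ι]→ₗ[K] N) (v w : ι → M) (c : ι → K) (rk : ι → ℕ)
    (h : ∀ a, w a - c a • v a ∈ Submodule.span K (v '' {b | rk b < rk a})) :
    f w = (∏ a, c a) • f v := by
  obtain ⟨N, hN⟩ : ∃ N, ∀ a, rk a < N := by
    refine ⟨∑ a, rk a + 1, fun a => ?_⟩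
    exact Nat.lt_succ_of_le (Finset.single_le_sum (f := rk) (fun _ _ => Nat.zero_le _)
      (Finset.mem_univ a))
  have key : ∀ j, j ≤ N → f (fun a => if N - j ≤ rk a then w a else v a) =
      (∏ a ∈ Finset.univ.filter (fun a => N - j ≤ rk a), c a) • f v := by
    intro j
    induction j with
    | zero =>
      intro _
      have e1 : (fun a => if N - 0 ≤ rk a then w a else v a) = v := by
        funext a
        rw [if_neg]
        have := hN a
        omega
      have e2 : Finset.univ.filter (fun a => N - 0 ≤ rk a) = ∅ := by
        rw [Finset.filter_eq_empty_iff]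
        intro a _
        have := hN a
        omega
      rw [e1, e2]
      simp
    | succ j ih =>
      intro hj
      have ih' := ih (by omega)
      set u : ι → M := fun a => if N - j ≤ rk a then w a else v a with hu
      set S : Finset ι := Finset.univ.filter (fun a => rk a = N - (j + 1)) with hS
      have e1 : (fun a => if N - (j + 1) ≤ rk a then w a else v a) = S.piecewise w u := by
        funext a
        by_cases h1 : rk a = N - (j + 1)
        · rw [Finset.piecewise_eq_of_mem _ _ _ (by simp [hS, h1]), if_pos h1.ge]
        · rw [Finset.piecewise_eq_of_notMem _ _ _ (by simp [hS, h1]), hu]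
          by_cases h2 : N - j ≤ rk a
          · rw [if_pos (by omega)]; simp [h2]
          · rw [if_neg (by omega)]; simp [h2]
      have hstep := alt_step f u w c S (by
        intro a ha
        have ha' : rk a = N - (j + 1) := by simpa [hS] using ha
        have e2 : u a = v a := by
          rw [hu]
          simp only
          rw [if_neg (by omega)]
        rw [e2]
        refine Submodule.span_mono ?_ (h a)
        rintro x ⟨b, hb, rfl⟩
        have hb' : rk b < rk a := hb
        refine ⟨b, ?_, ?_⟩
        · intro hbS
          have : rk b = N - (j + 1) := by simpa [hS] using hbS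
          omega
        · rw [hu]
          simp only
          rw [if_neg (by omega)])
      rw [e1, hstep, ih', smul_smul]
      congr 1
      have e3 : Finset.univ.filter (fun a => N - (j + 1) ≤ rk a) =
          S ∪ Finset.univ.filter (fun a => N - j ≤ rk a) := by
        ext a
        simp only [hS, Finset.mem_filter, Finset.mem_univ, true_and, Finset.mem_union]
        omega
      rw [e3, Finset.prod_union]
      rw [Finset.disjoint_left]
      intro a ha hb
      simp only [hS, Finset.mem_filter, Finset.mem_univ, true_and] at ha hb
      omega
  have := key N le_rfl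
  simpa using this

end alt

end Pool.Agent.Helper165
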