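import Pool.Agent.Helper165.Defs

set_option autoImplicit false

open AlgebraicGeometry CategoryTheory TopologicalSpace

universe u

namespace Pool.Agent.Helper165

variable {X Y : Scheme.{u}} [IsIntegral Y] (f : Y ⟶ X)

/-- The map from the local ring of `X` at `x` to the function field of `Y`. -/
noncomputable def locMap (x : X) (h : f (genericPoint Y) ⤳ x) :
    X.presheaf.stalk x ⟶ Y.functionField :=
  X.presheaf.stalkSpecializes h ≫ f.stalkMap (genericPoint Y)

lemma mem_of_specializes {x : X} (h : f (genericPoint Y) ⤳ x) {U : X.Opens} (hx : x ∈ U) :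
    f (genericPoint Y) ∈ U := h.mem_open U.isOpen hx

lemma locMap_germ (x : X) (h : f (genericPoint Y) ⤳ x) (U : X.Opens) (hx : x ∈ U)
    (hη : f (genericPoint Y) ∈ U) (s : Γ(X, U)) :
    (locMap f x h).hom (X.presheaf.germ U x hx s) =
      Y.presheaf.germ (f ⁻¹ᵁ U) (genericPoint Y) hη (f.app U s) := by
  unfold locMap
  have h1 := X.presheaf.germ_stalkSpecializes (U := U) hx h
  have h2 := Scheme.Hom.germ_stalkMap f U (genericPoint Y) hη
  have h3 : X.presheaf.germ U x hx ≫ X.presheaf.stalkSpecializes h ≫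
      f.stalkMap (genericPoint Y) = f.app U ≫ Y.presheaf.germ (f ⁻¹ᵁ U) (genericPoint Y) hη := by
    rw [← Category.assoc, h1]
    exact h2
  have h4 := congrArg (fun g => g.hom s) h3
  exact h4

/-- The local ring, as a subring of the function field. -/
noncomputable def localSubring (x : X) (h : f (genericPoint Y) ⤳ x) :
    Subring Y.functionField := (locMap f x h).hom.range

lemma localSubring_coe (x : X) (h : f (genericPoint Y) ⤳ x) :
    (localSubring f x h : Set Y.functionField) = localRing f x := by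
  ext φ
  exact ⟨fun hφ => ⟨h, hφ⟩, fun ⟨_, hφ⟩ => hφ⟩

/-- Sections over an open subset, in the function field. -/
noncomputable def secMap (V : X.Opens) (hη : f (genericPoint Y) ∈ V) :
    Γ(X, V) →+* Y.functionField :=
  (f.app V ≫ Y.presheaf.germ (f ⁻¹ᵁ V) (genericPoint Y) hη).hom

lemma secMap_mem (V : X.Opens) (x : X) (h : f (genericPoint Y) ⤳ x) (hx : x ∈ V)
    (a : Γ(X, V)) : secMap f V (mem_of_specializes f h hx) a ∈ localSubring f x h :=
  ⟨X.presheaf.germ V x hx a, locMap_germ f x h V hx _ a⟩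

/-- Elements of the local ring are fractions. -/
lemma exists_frac_of_mem (V : X.Opens) (hV : IsAffineOpen V) (x : X)
    (h : f (genericPoint Y) ⤳ x) (hx : x ∈ V) (φ : Y.functionField)
    (hφ : φ ∈ localSubring f x h) :
    ∃ a s : Γ(X, V), secMap f V (mem_of_specializes f h hx) s ≠ 0 ∧
      (secMap f V (mem_of_specializes f h hx) s)⁻¹ ∈ localSubring f x h ∧
      φ = secMap f V (mem_of_specializes f h hx) a / secMap f V (mem_of_specializes f h hx) s := by
  obtain ⟨w, rfl⟩ := hφ
  have hloc := hV.isLocalization_stalk ⟨x, hx⟩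
  let _ := TopCat.Presheaf.algebra_section_stalk X.presheaf (⟨x, hx⟩ : V)
  obtain ⟨⟨a, s⟩, hw⟩ := IsLocalization.surj (hV.primeIdealOf ⟨x, hx⟩).asIdeal.primeCompl w
  have hsu : IsUnit (algebraMap Γ(X, V) (X.presheaf.stalk x) (s : Γ(X, V))) :=
    IsLocalization.map_units (X.presheaf.stalk x) s
  have halg : ∀ r : Γ(X, V), (locMap f x h).hom (algebraMap Γ(X, V) (X.presheaf.stalk x) r) =
      secMap f V (mem_of_specializes f h hx) r := fun r => locMap_germ f x h V hx _ r
  have hu2 := hsu.map (locMap f x h).hom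
  rw [halg] at hu2
  have hne := hu2.ne_zero
  refine ⟨a, s, hne, ?_, ?_⟩
  · obtain ⟨t, ht⟩ := hsu.exists_right_inv
    refine ⟨t, ?_⟩
    have h1 := congrArg (locMap f x h).hom ht
    rw [map_mul, map_one, halg] at h1
    exact eq_inv_of_mul_eq_one_right h1
  · rw [eq_div_iff hne, ← halg a, ← halg s, ← map_mul]
    exact congrArg (locMap f x h).hom hw

end Pool.Agent.Helper165
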