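import Pool.Agent.Helper165.Crep
import Pool.Agent.Helper165.Codim

set_option autoImplicit false

open AlgebraicGeometry CategoryTheory TopologicalSpace

universe u

namespace Pool.Agent.Helper165

variable (p : ℕ) (k : Type u) [Field k] [hp : Fact p.Prime]

instance resY_isIntegral : IsIntegral (resY p k) := resY_integral p k

/-- the generic point of the resolution specialises to every point of `X` -/
lemma generic_resF (x : quotientScheme p k) : resF p k (genericPoint (resY p k)) ⤳ x := by
  rw [specializes_iff_mem_closure]
  have h1 := quotient_integral p k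
  have hd : Dense (opD p k (i0 p) : Set (quotientScheme p k)) :=
    (opD p k (i0 p)).isOpen.dense (opD_nonempty p k _)
  have hr : (opD p k (i0 p) : Set (quotientScheme p k)) ⊆
      closure {resF p k (genericPoint (resY p k))} := by
    intro z hz
    have h3 := resF_isIso p k (i0 p)
    obtain ⟨w, hw⟩ := (resF p k ∣_ opD p k (i0 p)).surjective ⟨z, hz⟩
    have hw2 : resF p k w.1 = z := by
      have := morphismRestrict_base_coe (resF p k) (opD p k (i0 p)) w
      rw [hw] at this
      exact this.symm
    rw [← specializes_iff_mem_closure, ← hw2]
    exact (generic_specializes (Y := resY p k) w.1).map (resF p k).continuous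
  have h2 : closure {resF p k (genericPoint (resY p k))} = Set.univ := by
    apply Set.eq_univ_of_univ_subset
    rw [← hd.closure_eq]
    exact closure_minimal hr isClosed_closure
  rw [h2]
  trivial

section

variable [CharP k p]

omit hp [CharP k p] in
lemma chartRing_nontrivial (i : Fin p) : Nontrivial (ChartRing p k i) :=
  (psiL p k i).domain_nontrivial

omit hp [CharP k p] in
lemma toChart_injective (i : Fin p) : Function.Injective (toChart p k i) := by
  intro a b h
  have h3 := congrArg (psiL p k i) h
  rw [psiL_toChart, psiL_toChart] at h3
  exact gL_injective p k h3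

lemma tC_idx_bijective (i : Fin p) : Function.Bijective
    (MvPolynomial.aeval (fun m => tC p k i (eIdx p m)) :
      MvPolynomial (Fin (2 * p)) k →ₐ[k] ChartRing p k i) := by
  have h : (MvPolynomial.aeval (fun m => tC p k i (eIdx p m)) :
      MvPolynomial (Fin (2 * p)) k →ₐ[k] ChartRing p k i) =
      (MvPolynomial.aeval (tC p k i) : PR p k →ₐ[k] ChartRing p k i).comp
        (MvPolynomial.renameEquiv k (eIdx p)).toAlgHom := by
    apply MvPolynomial.algHom_ext
    intro m
    simp
  rw [h, AlgHom.coe_comp]
  exact (tC_bijective p k i).comp (MvPolynomial.renameEquiv k (eIdx p)).bijective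

lemma exists_toChart (i : Fin p) (a : Fin 2 × Fin p) :
    ∃ b : invariantRing p k, toChart p k i b = tC p k i a * toChart p k i (xA p k i) := by
  obtain ⟨b, j⟩ := a
  by_cases h : j = i
  · subst h
    rcases fin2 b with rfl | rfl
    · exact ⟨nA p k j * xA p k j, by rw [map_mul, tC_0i]⟩
    · exact ⟨xA p k j * xA p k j, by rw [map_mul, tC_1i]⟩
  · rcases fin2 b with rfl | rfl
    · exact ⟨uA p k i j, (tC_0j p k h).symm⟩
    · exact ⟨xA p k j, (tC_1j p k h).symm⟩

theorem resF_crepant : IsCrepant (2 * p) (resF p k) (quotientStructure p k) := by
  have hnt : ∀ i, Nontrivial (ChartRing p k i) := chartRing_nontrivial p k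
  refine crepant_of_charts (k := k) (A := invariantRing p k) (Y := resY p k) (resF p k) (2 * p)
    (I := Fin p) (ChartRing p k) (chart p k) (toChart p k) (chart_resF p k) (fun _ _ => rfl)
    (toChart_injective p k) ?_ (generic_resF p k) (fun i m => tC p k i (eIdx p m))
    (tC_idx_bijective p k) (xA p k) (xA_ne_zero p k) (exists_notMem_of_coheight p k)
    (fun i m => exists_toChart p k i (eIdx p m)) ?_
  · intro y
    obtain ⟨i, z, hz⟩ := exists_chart p k y
    exact ⟨i, z, trivial, hz⟩
  · intro K _ _ g hg γ hγ i i'
    exact gamma_forms p k g hg γ hγ i i'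

theorem resF_isCrepantResolution :
    IsCrepantResolution (2 * p) (resF p k) (quotientStructure p k) where
  smooth := resY_smooth p k
  proper := resF_proper p k
  birational := resF_birational p k
  crepant := resF_crepant p k

end

end Pool.Agent.Helper165
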