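import Pool.Agent.Helper165.Rees

set_option autoImplicit false

open Polynomial DirectSum HomogeneousLocalization

universe u v

namespace Pool.Agent.Helper165

variable {A : Type u} [CommRing A] (J : Ideal A)

/-- the ring map from `A` to the degree zero part of the Rees algebra -/
noncomputable def toZero : A →+* reesPiece J 0 where
  toFun a := ⟨reesMon J 0 a (by simp), reesMon_mem J _ _ _⟩
  map_one' := by
    apply Subtype.ext; apply Subtype.ext
    simp only [reesMon, monomial_zero_one]
    rfl
  map_mul' a b := by
    apply Subtype.ext; apply Subtype.ext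
    simp only [reesMon]
    change monomial 0 (a * b) = monomial 0 a * monomial 0 b
    rw [monomial_mul_monomial]
  map_zero' := by
    apply Subtype.ext; apply Subtype.ext
    simp only [reesMon, map_zero]
    rfl
  map_add' a b := by
    apply Subtype.ext; apply Subtype.ext
    simp only [reesMon, map_add]
    rfl

lemma toZero_bijective : Function.Bijective (toZero J) := by
  constructor
  · intro a b h
    have h2 := congrArg (fun z : reesPiece J 0 => ((z : reesAlgebra J) : A[X]).coeff 0) h
    simpa [toZero, reesMon] using h2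
  · intro z
    refine ⟨((z : reesAlgebra J) : A[X]).coeff 0, ?_⟩
    apply Subtype.ext
    exact (eq_reesMon J z.2).symm

lemma finiteType_zero (hJ : J.FG) : Algebra.FiniteType (reesPiece J 0) (reesAlgebra J) := by
  have h1 : Algebra.FiniteType A (reesAlgebra J) :=
    ⟨(reesAlgebra J).fg_top.mpr (reesAlgebra.fg hJ)⟩
  obtain ⟨s, hs⟩ := h1.out
  refine ⟨s, ?_⟩
  rw [eq_top_iff]
  rintro z -
  have hz : z ∈ Algebra.adjoin A (s : Set (reesAlgebra J)) := by rw [hs]; trivial
  induction hz using Algebra.adjoin_induction with
  | mem x hx => exact Algebra.subset_adjoin hx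
  | algebraMap r =>
    have : algebraMap A (reesAlgebra J) r =
        algebraMap (reesPiece J 0) (reesAlgebra J) (toZero J r) := by
      apply Subtype.ext
      rfl
    rw [this]
    exact Subalgebra.algebraMap_mem _ _
  | add x y _ _ hx hy => exact Subalgebra.add_mem _ hx hy
  | mul x y _ _ hx hy => exact Subalgebra.mul_mem _ hx hy

variable {L : Type v} [Field L] (g : A →+* L)

/-- evaluation at `T = 1`, from the Rees algebra to `L` -/
noncomputable def evalOne : reesAlgebra J →+* L :=
  (eval₂RingHom g 1).comp (reesAlgebra J).val.toRingHom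

lemma evalOne_reesMon (n : ℕ) (a : A) (ha : a ∈ J ^ n) : evalOne J g (reesMon J n a ha) = g a := by
  simp [evalOne, reesMon]

/-- The element `a T` of the Rees algebra, for `a ∈ J`. -/
noncomputable def tElt (a : A) (ha : a ∈ J) : reesAlgebra J := reesMon J 1 a (by simpa using ha)

lemma tElt_mem (a : A) (ha : a ∈ J) : tElt J a ha ∈ reesPiece J 1 := reesMon_mem J _ _ _

lemma evalOne_tElt (a : A) (ha : a ∈ J) : evalOne J g (tElt J a ha) = g a :=
  evalOne_reesMon J g 1 a _

/-- The map from the chart ring of the blowup to a field. -/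
noncomputable def psi (a : A) (ha : a ∈ J) (hga : g a ≠ 0) :
    Away (reesPiece J) (tElt J a ha) →+* L :=
  (IsLocalization.Away.lift (S := Localization.Away (tElt J a ha)) (tElt J a ha)
    (g := evalOne J g) (by rw [evalOne_tElt]; exact IsUnit.mk0 _ hga)).comp
    (algebraMap (Away (reesPiece J) (tElt J a ha)) (Localization.Away (tElt J a ha)))

/-- The element `b / a ^ n` of the chart ring, for `b ∈ J ^ n`. -/
noncomputable def frac (a : A) (ha : a ∈ J) (n : ℕ) (b : A) (hb : b ∈ J ^ n) :
    Away (reesPiece J) (tElt J a ha) :=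
  Away.mk (reesPiece J) (tElt_mem J a ha) n (reesMon J n b hb)
    (by rw [smul_eq_mul, mul_one]; exact reesMon_mem J n b hb)

lemma exists_frac (a : A) (ha : a ∈ J) (z : Away (reesPiece J) (tElt J a ha)) :
    ∃ (n : ℕ) (b : A) (hb : b ∈ J ^ n), z = frac J a ha n b hb := by
  obtain ⟨n, y, hy, rfl⟩ := Away.mk_surjective (reesPiece J) (tElt_mem J a ha) z
  have hy' : y ∈ reesPiece J n := by
    have := hy
    rwa [smul_eq_mul, mul_one] at this
  refine ⟨n, (y : A[X]).coeff n, y.2 n, ?_⟩
  unfold frac
  congr 1
  exact eq_reesMon J hy'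

lemma psi_frac (a : A) (ha : a ∈ J) (hga : g a ≠ 0) (n : ℕ) (b : A) (hb : b ∈ J ^ n) :
    psi J g a ha hga (frac J a ha n b hb) = g b / g a ^ n := by
  unfold psi frac
  rw [RingHom.comp_apply, HomogeneousLocalization.algebraMap_apply, Away.val_mk,
    Localization.mk_eq_mk', IsLocalization.Away.lift, IsLocalization.lift_mk'_spec]
  simp only [map_pow, evalOne_tElt, evalOne_reesMon]
  field_simp

lemma psi_injective (a : A) (ha : a ∈ J) (hga : g a ≠ 0) (hg : Function.Injective g) :
    Function.Injective (psi J g a ha hga) := by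
  rw [injective_iff_map_eq_zero]
  intro z hz
  obtain ⟨n, b, hb, rfl⟩ := exists_frac J a ha z
  rw [psi_frac] at hz
  have h1 : g b = 0 := by
    rcases div_eq_zero_iff.1 hz with h | h
    · exact h
    · exact absurd h (pow_ne_zero _ hga)
  have h2 : b = 0 := (map_eq_zero_iff g hg).1 h1
  subst h2
  unfold frac
  apply HomogeneousLocalization.val_injective
  rw [Away.val_mk, HomogeneousLocalization.val_zero]
  have : reesMon J n 0 hb = 0 := by
    apply Subtype.ext
    simp [reesMon]
  rw [this, Localization.mk_zero]

/-- the ring map `A → ` chart ring -/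
noncomputable def chartMap (a : A) (ha : a ∈ J) : A →+* Away (reesPiece J) (tElt J a ha) :=
  (fromZeroRingHom (reesPiece J) (.powers (tElt J a ha))).comp (toZero J)

lemma psi_chartMap (a : A) (ha : a ∈ J) (hga : g a ≠ 0) (b : A) :
    psi J g a ha hga (chartMap J a ha b) = g b := by
  have h : chartMap J a ha b = frac J a ha 0 b (by simp) := by
    apply HomogeneousLocalization.val_injective
    unfold frac chartMap
    rw [Away.val_mk]
    simp only [pow_zero]
    rfl
  rw [h, psi_frac]
  simp

end Pool.Agent.Helper165
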