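import Mathlib

set_option autoImplicit false

open Polynomial DirectSum

universe u

namespace Pool.Agent.Helper165

variable {A : Type u} [CommRing A] (J : Ideal A)

/-- The graded piece of degree `n` of the Rees algebra. -/
def reesPiece (n : ℕ) : Submodule A (reesAlgebra J) where
  carrier := {f | ∀ m, m ≠ n → (f : A[X]).coeff m = 0}
  add_mem' := by
    intro f g hf hg m hm
    have h1 := hf m hm
    have h2 := hg m hm
    simp only [Subalgebra.coe_add, coeff_add, h1, h2, add_zero]
  zero_mem' := by intro m _; simp
  smul_mem' := by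
    intro a f hf m hm
    have h1 := hf m hm
    simp only [Subalgebra.coe_smul, coeff_smul, h1, smul_zero]

lemma mem_reesPiece {n : ℕ} {f : reesAlgebra J} :
    f ∈ reesPiece J n ↔ ∀ m, m ≠ n → (f : A[X]).coeff m = 0 := Iff.rfl

/-- the element `a T ^ n` of the Rees algebra, for `a ∈ J ^ n` -/
noncomputable def reesMon (n : ℕ) (a : A) (ha : a ∈ J ^ n) : reesAlgebra J :=
  ⟨monomial n a, reesAlgebra.monomial_mem.2 ha⟩

lemma reesMon_mem (n : ℕ) (a : A) (ha : a ∈ J ^ n) : reesMon J n a ha ∈ reesPiece J n := by
  intro m hm
  simp only [reesMon, coeff_monomial]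
  rw [if_neg (Ne.symm hm)]

lemma eq_reesMon {n : ℕ} {f : reesAlgebra J} (hf : f ∈ reesPiece J n) :
    f = reesMon J n ((f : A[X]).coeff n) (f.2 n) := by
  apply Subtype.ext
  ext m
  simp only [reesMon, coeff_monomial]
  by_cases h : n = m
  · subst h; simp
  · rw [if_neg h]
    exact hf m (Ne.symm h)

instance : SetLike.GradedMonoid (reesPiece J) where
  one_mem := by
    intro m hm
    simp only [OneMemClass.coe_one, coeff_one]
    rw [if_neg hm]
  mul_mem := by
    intro i j f g hf hg
    rw [eq_reesMon J hf, eq_reesMon J hg]
    intro m hm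
    simp only [reesMon, MulMemClass.mk_mul_mk, monomial_mul_monomial, coeff_monomial]
    rw [if_neg (Ne.symm hm)]

/-- The homogeneous component of degree `i`. -/
noncomputable def reesComp (i : ℕ) (f : reesAlgebra J) : reesPiece J i :=
  ⟨reesMon J i ((f : A[X]).coeff i) (f.2 i), reesMon_mem J _ _ _⟩

/-- Decomposition into homogeneous components. -/
noncomputable def reesDec (f : reesAlgebra J) : ⨁ i, reesPiece J i :=
  ∑ i ∈ (f : A[X]).support, DirectSum.of (fun i => reesPiece J i) i (reesComp J i f)

lemma reesDec_apply (f : reesAlgebra J) (i : ℕ) : reesDec J f i = reesComp J i f := by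
  classical
  unfold reesDec
  rw [DFinsupp.finsetSum_apply]
  by_cases hi : i ∈ (f : A[X]).support
  · rw [Finset.sum_eq_single i]
    · exact DirectSum.of_eq_same _ _
    · intro j _ hj
      exact DirectSum.of_eq_of_ne _ _ _ (Ne.symm hj)
    · intro h; exact absurd hi h
  · rw [Finset.sum_eq_zero]
    · apply Subtype.ext
      apply Subtype.ext
      simp only [reesComp, reesMon]
      rw [notMem_support_iff.1 hi]
      simp
    · intro j hj
      refine DirectSum.of_eq_of_ne _ _ _ ?_
      rintro rfl
      exact hi hj

lemma coeff_coe_sum (x : ⨁ i, reesPiece J i) (m : ℕ) :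
    ((DirectSum.coeAddMonoidHom (reesPiece J) x : reesAlgebra J) : A[X]).coeff m =
      (((x m : reesPiece J m) : reesAlgebra J) : A[X]).coeff m := by
  classical
  induction x using DirectSum.induction_on with
  | zero => simp
  | of i y =>
    rw [DirectSum.coeAddMonoidHom_of]
    by_cases h : i = m
    · subst h
      rw [DirectSum.of_eq_same]
    · rw [DirectSum.of_eq_of_ne _ _ _ (Ne.symm h)]
      simp only [ZeroMemClass.coe_zero, coeff_zero]
      exact y.2 m (Ne.symm h)
  | add x y hx hy =>
    rw [map_add, DirectSum.add_apply]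
    simp only [Subalgebra.coe_add, coeff_add, Submodule.coe_add, hx, hy]

noncomputable instance : GradedAlgebra (reesPiece J) where
  decompose' := reesDec J
  left_inv := by
    intro f
    apply Subtype.ext
    ext m
    rw [coeff_coe_sum, reesDec_apply]
    simp [reesComp, reesMon]
  right_inv := by
    intro x
    refine DFinsupp.ext fun i => ?_
    rw [reesDec_apply]
    apply Subtype.ext
    rw [reesComp]
    simp only
    rw [eq_reesMon J (x i).2]
    apply Subtype.ext
    simp only [reesMon]
    rw [coeff_coe_sum]

end Pool.Agent.Helper165
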